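import Pool.Agent.Thin.Defs

/-!
# Definitions: points of the links, flat configurations without a common narrow place
-/

set_option autoImplicit false

namespace Pool.Agent.ThinA

open Real Finset Pool.Agent.Lib_helper54.Flat

/-- The point with the parameter `r` of the link number `k`. -/
noncomputable def pt {n : ℕ} (P : Fin (n + 1) → E3) (k : ℕ) (r : ℝ) : E3 :=
  vx P k + r • (vx P (k + 1) - vx P k)

/-- The number `L * A ^ 2` for the links number `i` and `j`: `L` is the total length of the links
from `i` to `j` and `A` is the sum of `min θ (π - θ)` over the joint angles `θ` between them. -/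
noncomputable def size {n : ℕ} (P : Fin (n + 1) → E3) (i j : ℕ) : ℝ :=
  (∑ k ∈ Icc i j, dist (vx P k) (vx P (k + 1))) *
    (∑ k ∈ Ico i j, min (jointAngle P k) (π - jointAngle P k)) ^ 2

/-- For any two links `i`, `j` that are not adjacent, any point of `i` and any point of `j` have in
at least one of the two configurations a distance of more than `size P i j`. -/
def Apart {n : ℕ} (P Q : Fin (n + 1) → E3) : Prop :=
  ∀ i j : ℕ, i + 1 < j → j < n → ∀ r r' : ℝ, 0 ≤ r → r ≤ 1 → 0 ≤ r' → r' ≤ 1 →
    size P i j < dist (pt P i r) (pt P j r') ∨ size P i j < dist (pt Q i r) (pt Q j r')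

/-- The limit polygon (see `lim`) for the turns `s` of the chain with `n` links is simple: any two
links that are not adjacent are disjoint. -/
def LimSimple (n : ℕ) (ℓ a : ℕ → ℝ) (fold : ℕ → Bool) (s : ℕ → ℝ) : Prop :=
  ∀ i j : ℕ, i + 1 < j → j < n →
    Disjoint
      (segment ℝ (Pool.Agent.Thin.lim ℓ a fold s i) (Pool.Agent.Thin.lim ℓ a fold s (i + 1)))
      (segment ℝ (Pool.Agent.Thin.lim ℓ a fold s j) (Pool.Agent.Thin.lim ℓ a fold s (j + 1)))

end Pool.Agent.ThinA
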