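import Pool.Agent.ThinA.Main
import Pool.Agent.ThinA.Defs

/-!
# Two flat configurations without a common narrow place are joined
-/

set_option autoImplicit false

namespace Pool.Agent.ThinA

open Real Finset Pool.Agent.Thin Pool.Agent.Lib_helper54.Flat

theorem abs_sin_sub_le {x : ℝ} (h : |x| ≤ 1) : |sin x - x| ≤ |x| ^ 3 / 4 := by
  have h1 := Real.sin_bound h
  have h2 : |sin x - x| ≤ |sin x - (x - x ^ 3 / 6)| + |x| ^ 3 / 6 := by
    have e1 : sin x - x = (sin x - (x - x ^ 3 / 6)) + -(x ^ 3 / 6) := by ring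
    have e2 : |-(x ^ 3 / 6)| = |x| ^ 3 / 6 := by
      rw [abs_neg, abs_div, abs_pow, abs_of_pos (by norm_num : (0 : ℝ) < 6)]
    calc |sin x - x| = |(sin x - (x - x ^ 3 / 6)) + -(x ^ 3 / 6)| := by rw [← e1]
      _ ≤ _ := by rw [← e2]; exact abs_add_le _ _
  have h3 : |x| ^ 5 ≤ |x| ^ 3 := pow_le_pow_of_le_one (abs_nonneg x) h (by norm_num)
  have h4 : 0 ≤ |x| ^ 3 := by positivity
  linarith

/-- If a chord vanishes during the motion, then the corresponding chord of the flat configuration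
is short. -/
theorem flat_short {e f : E3} {n : ℕ → E3} (hfe : inner ℝ f e = (0 : ℝ)) {σ α : ℕ → ℝ} {C : ℝ}
    (hC : 0 < C) (hx : ∀ k, (inner ℝ f (n k) : ℝ) = C * σ k) (hσ : ∀ k, σ k = 1 ∨ σ k = -1)
    (hp : ∀ k, Pair e (n k)) (h0 : ∀ k, 0 ≤ α k) {m : ℕ}
    (hA : ∑ j ∈ range m, α j ≤ 1) {c : ℕ → ℝ} {L : ℝ} (hL : ∑ k ∈ range (m + 1), |c k| ≤ L)
    (hz : ∑ k ∈ range (m + 1), c k • frm e n α k e = 0) :
    flatSq σ α c m ≤ (L * (∑ j ∈ range m, α j) ^ 2) ^ 2 := by
  have hle : ∀ k ∈ range (m + 1), ∑ i ∈ range k, α i ≤ ∑ i ∈ range m, α i := fun k hk =>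
    sum_le_sum_of_subset_of_nonneg (range_subset_range.2 (by have := mem_range.1 hk; omega))
      fun i _ _ => h0 i
  have hs0 : ∀ k, 0 ≤ ∑ i ∈ range k, α i := fun k => sum_nonneg fun i _ => h0 i
  have hpsi : ∀ k, |psi σ α k| ≤ ∑ i ∈ range k, α i := by
    intro k
    unfold psi
    refine (abs_sum_le_sum_abs _ _).trans (sum_le_sum fun i _ => ?_)
    rw [abs_mul, abs_of_nonneg (h0 i)]
    rcases hσ i with h | h <;> rw [h] <;> simp
  have hxC : ∀ k, |(inner ℝ f (n k) : ℝ)| ≤ C := by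
    intro k
    rw [hx k]
    rcases hσ k with h | h <;> rw [h] <;> simp [abs_of_pos hC]
  obtain ⟨A, hAe⟩ : ∃ A, A = ∑ i ∈ range m, α i := ⟨_, rfl⟩
  rw [← hAe] at hle hA ⊢
  have hA0 : 0 ≤ A := by rw [hAe]; exact hs0 m
  have hee := (hp 0).ee
  have he1 : ‖e‖ = 1 := (pair_norm (hp 0)).1
  have hL0 : 0 ≤ L := (sum_nonneg fun k _ => abs_nonneg (c k)).trans hL
  -- the component in the direction of `e`
  have hE : |∑ k ∈ range (m + 1), c k * cos (psi σ α k)| ≤ L * (A ^ 2 / 2) := by
    have h1 : ∑ k ∈ range (m + 1), c k * (inner ℝ e (frm e n α k e) : ℝ) = 0 := by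
      have h2 : (inner ℝ e (∑ k ∈ range (m + 1), c k • frm e n α k e) : ℝ) = 0 := by
        rw [hz, inner_zero_right]
      rw [inner_sum] at h2
      simpa only [inner_smul_right] using h2
    have h2 : ∑ k ∈ range (m + 1), c k * cos (psi σ α k) =
        ∑ k ∈ range (m + 1), c k * (cos (psi σ α k) - inner ℝ e (frm e n α k e)) := by
      simp only [mul_sub, sum_sub_distrib]
      rw [h1, sub_zero]
    rw [h2]
    calc |∑ k ∈ range (m + 1), c k * (cos (psi σ α k) - inner ℝ e (frm e n α k e))|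
        ≤ ∑ k ∈ range (m + 1), |c k| * (A ^ 2 / 2) := by
          refine (abs_sum_le_sum_abs _ _).trans (sum_le_sum fun k hk => ?_)
          rw [abs_mul]
          refine mul_le_mul_of_nonneg_left ?_ (abs_nonneg _)
          have a1 := hle k hk
          have a2 := hpsi k
          have a3 := hs0 k
          have a4 : psi σ α k ^ 2 ≤ A ^ 2 := by
            rw [← sq_abs]
            exact pow_le_pow_left₀ (abs_nonneg _) (a2.trans a1) 2
          have a5 : 1 - A ^ 2 / 2 ≤ cos (psi σ α k) := by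
            have := Real.one_sub_sq_div_two_le_cos (x := psi σ α k)
            linarith
          have a6 := cos_le_one (psi σ α k)
          have a7 : ‖frm e n α k e‖ = 1 := by rw [frm_norm hp, he1]
          have a8 : (inner ℝ e (frm e n α k e) : ℝ) ≤ 1 := by
            have := real_inner_le_norm e (frm e n α k e)
            rwa [a7, he1, mul_one] at this
          have a9 : 1 - A ^ 2 / 2 ≤ (inner ℝ e (frm e n α k e) : ℝ) := by
            have b1 := frm_sub hp h0 k e
            rw [he1, mul_one] at b1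
            have b2 : ‖frm e n α k e - e‖ ^ 2 ≤ A ^ 2 :=
              pow_le_pow_left₀ (norm_nonneg _) (b1.trans a1) 2
            rw [norm_sub_sq_real, a7, he1, real_inner_comm] at b2
            linarith
          rw [abs_le]
          constructor <;> linarith
      _ = (∑ k ∈ range (m + 1), |c k|) * (A ^ 2 / 2) := by rw [sum_mul]
      _ ≤ L * (A ^ 2 / 2) := mul_le_mul_of_nonneg_right hL (by positivity)
  -- the component in the direction of `f`
  have hF : |∑ k ∈ range (m + 1), c k * sin (psi σ α k)| ≤ L * (A ^ 3 / 2) := by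
    have h1 : ∑ k ∈ range (m + 1), c k * ((inner ℝ f (frm e n α k e) : ℝ) / C) = 0 := by
      have h2 : (inner ℝ f (∑ k ∈ range (m + 1), c k • frm e n α k e) : ℝ) = 0 := by
        rw [hz, inner_zero_right]
      rw [inner_sum] at h2
      simp only [inner_smul_right] at h2
      have h3 : ∑ k ∈ range (m + 1), c k * ((inner ℝ f (frm e n α k e) : ℝ) / C) =
          (∑ k ∈ range (m + 1), c k * (inner ℝ f (frm e n α k e) : ℝ)) / C := by
        rw [sum_div]
        exact sum_congr rfl fun k _ => by ring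
      rw [h3, h2, zero_div]
    have h2 : ∑ k ∈ range (m + 1), c k * sin (psi σ α k) =
        ∑ k ∈ range (m + 1), c k * (sin (psi σ α k) - inner ℝ f (frm e n α k e) / C) := by
      simp only [mul_sub, sum_sub_distrib]
      rw [h1, sub_zero]
    rw [h2]
    calc |∑ k ∈ range (m + 1), c k * (sin (psi σ α k) - inner ℝ f (frm e n α k e) / C)|
        ≤ ∑ k ∈ range (m + 1), |c k| * (A ^ 3 / 2) := by
          refine (abs_sum_le_sum_abs _ _).trans (sum_le_sum fun k hk => ?_)
          rw [abs_mul]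
          refine mul_le_mul_of_nonneg_left ?_ (abs_nonneg _)
          have a1 := hle k hk
          have a2 := hpsi k
          have a3 := hs0 k
          have b0 : |psi σ α k| ≤ 1 := (a2.trans a1).trans hA
          have b1 := abs_sin_sub_le b0
          have b2 : |psi σ α k| ^ 3 ≤ A ^ 3 :=
            pow_le_pow_left₀ (abs_nonneg _) (a2.trans a1) 3
          have b3 := (frm_sharp hfe hC.le hxC hp h0 k (a1.trans hA)).2.2
          have b4 : (∑ i ∈ range k, α i) ^ 3 ≤ A ^ 3 := pow_le_pow_left₀ a3 a1 3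
          have b5 : ∑ j ∈ range k, α j * (inner ℝ f (n j) : ℝ) = C * psi σ α k := by
            unfold psi
            rw [mul_sum]
            exact sum_congr rfl fun j _ => by rw [hx j]; ring
          rw [b5] at b3
          have b6 : |psi σ α k - inner ℝ f (frm e n α k e) / C| ≤ A ^ 3 / 4 := by
            have c1 : psi σ α k - inner ℝ f (frm e n α k e) / C =
                -((inner ℝ f (frm e n α k e) - C * psi σ α k) / C) := by
              field_simp
              ring
            rw [c1, abs_neg, abs_div, abs_of_pos hC, div_le_iff₀ hC]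
            refine b3.trans ?_
            have := mul_le_mul_of_nonneg_left b4 hC.le
            linarith
          have b7 : sin (psi σ α k) - inner ℝ f (frm e n α k e) / C =
              (sin (psi σ α k) - psi σ α k) +
                (psi σ α k - inner ℝ f (frm e n α k e) / C) := by ring
          rw [b7]
          refine (abs_add_le _ _).trans ?_
          linarith
      _ = (∑ k ∈ range (m + 1), |c k|) * (A ^ 3 / 2) := by rw [sum_mul]
      _ ≤ L * (A ^ 3 / 2) := mul_le_mul_of_nonneg_right hL (by positivity)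
  unfold flatSq
  rw [← sq_abs, ← sq_abs (∑ k ∈ range (m + 1), c k * sin (psi σ α k))]
  have e1 := pow_le_pow_left₀ (abs_nonneg _) hE 2
  have e2 := pow_le_pow_left₀ (abs_nonneg _) hF 2
  have e3 : (L * (A ^ 2 / 2)) ^ 2 + (L * (A ^ 3 / 2)) ^ 2 ≤ (L * A ^ 2) ^ 2 := by
    have f1 : A ^ 2 ≤ 1 := by nlinarith
    have f2 : 0 ≤ (L * A ^ 2) ^ 2 := by positivity
    have f3 : (L * (A ^ 2 / 2)) ^ 2 + (L * (A ^ 3 / 2)) ^ 2 =
        (L * A ^ 2) ^ 2 * ((1 + A ^ 2) / 4) := by ring
    rw [f3]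
    nlinarith
  linarith

section

variable {n : ℕ} {P Q : Fin (n + 1) → E3} {l θ : ℕ → ℝ}

theorem size_eq (hD : Data P l θ) {i m : ℕ} (hi : i + m < n) : size P i (i + m) =
    (∑ k ∈ range (m + 1), l (i + k)) * (∑ k ∈ range m, al θ (i + k)) ^ 2 := by
  have hL : ∑ k ∈ Icc i (i + m), dist (vx P k) (vx P (k + 1)) =
      ∑ k ∈ range (m + 1), l (i + k) := by
    have h2 : Icc i (i + m) = Ico i (i + m + 1) := by
      ext k; simp only [mem_Icc, mem_Ico]; omega
    rw [h2, sum_Ico_eq_sum_range, show i + m + 1 - i = m + 1 by omega]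
    refine sum_congr rfl fun k hk => ?_
    have := mem_range.1 hk
    exact hD.len' (by omega)
  have hA : ∑ k ∈ Ico i (i + m), min (jointAngle P k) (π - jointAngle P k) =
      ∑ k ∈ range m, al θ (i + k) := by
    rw [sum_Ico_eq_sum_range, Nat.add_sub_cancel_left]
    refine sum_congr rfl fun k hk => ?_
    have := mem_range.1 hk
    have h3 : jointAngle P (i + k) = θ (i + k) := hD.ang' (by omega)
    rw [h3]
    rfl
  unfold size
  rw [hL, hA]

/-- The chord between two points of a flat configuration. -/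
theorem dist_flat {p e f : E3} (h : Pair e f) {s : ℕ → ℝ}
    (hs : ∀ k, s k = 1 ∨ s k = -1)
    (hP : P = cfg n p e (fun k => s k • f) (al θ) (rh l θ)) {i m : ℕ} (hm : 2 ≤ m)
    (hi : i + m < n) (r r' : ℝ) :
    dist (pt P i r) (pt P (i + m) r') ^ 2 = flatSq (fun k => s (i + k))
      (fun k => al θ (i + k)) (cf (rh l θ) i m r r') m := by
  have hpair : ∀ k, Pair e (s k • f) := by
    intro k
    refine ⟨h.ee, ?_, ?_⟩
    · rw [inner_smul_left, inner_smul_right, h.nn]
      rcases hs k with h1 | h1 <;> rw [h1] <;> simp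
    · rw [inner_smul_right, h.en, mul_zero]
  have hv : ∀ k, k ≤ n → vx P k = vtt p e (fun k => s k • f) (al θ) (rh l θ) k := by
    intro k hk
    rw [hP]
    exact vx_cfg hk
  unfold pt
  rw [dist_comm, dist_eq_norm, hv i (by omega), hv (i + 1) (by omega),
    hv (i + m) (by omega), hv (i + m + 1) (by omega), vtt_succ p e _ _ _ i,
    vtt_succ p e _ _ _ (i + m), add_sub_cancel_left, add_sub_cancel_left,
    chord_eq p e _ _ _ i m (by omega), frm_norm hpair]
  exact norm_flat h (fun k => hs (i + k)) (fun k => al θ (i + k)) (cf (rh l θ) i m r r') m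

/-- The distance of two points is at most the length. -/
theorem dist_le_len (hD : Data P l θ) (hn : 1 ≤ n) :
    dist (pt P 0 0) (pt P (n - 1) 1) ≤ ∑ k ∈ range n, l k := by
  have e1 : pt P 0 0 = vx P 0 := by unfold pt; simp
  have e2 : pt P (n - 1) 1 = vx P n := by
    unfold pt
    rw [one_smul, add_sub_cancel, show n - 1 + 1 = n by omega]
  rw [e1, e2]
  refine (dist_le_range_sum_dist (vx P) n).trans (le_of_eq ?_)
  refine sum_congr rfl fun k hk => ?_
  exact hD.len' (mem_range.1 hk)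

/-- If two configurations are apart, then the angles are near `0` or `π`. -/
theorem small_of_apart (hD : Data P l θ) (hDQ : Data Q l θ) (hA : Apart P Q) (hn : 3 ≤ n) :
    ∑ k ∈ range (n - 1), al θ k ≤ 1 := by
  have h1 := hA 0 (n - 1) (by omega) (by omega) 0 1 le_rfl zero_le_one zero_le_one le_rfl
  have h2 := dist_le_len hD (by omega)
  have h3 := dist_le_len hDQ (by omega)
  have h4 := size_eq hD (i := 0) (m := n - 1) (by omega)
  simp only [zero_add] at h4
  rw [show n - 1 + 1 = n by omega] at h4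
  obtain ⟨L, hL⟩ : ∃ L, L = ∑ k ∈ range n, l k := ⟨_, rfl⟩
  obtain ⟨A, hAe⟩ : ∃ A, A = ∑ k ∈ range (n - 1), al θ k := ⟨_, rfl⟩
  rw [← hL] at h2 h3 h4
  rw [← hAe] at h4 ⊢
  have h5 : size P 0 (n - 1) < L := by
    rcases h1 with h | h
    · exact h.trans_le h2
    · exact h.trans_le h3
  rw [h4] at h5
  by_contra hc
  push Not at hc
  have hL0 : 0 ≤ L := by rw [hL]; exact sum_nonneg fun k _ => (hD.pos k).le
  have h6 : 1 ≤ A ^ 2 := by nlinarith
  nlinarith

/-- The configurations of the motion. -/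
theorem mem_pair (hD : Data P l θ) (hpos : ∀ k, k + 2 ≤ n → 0 < θ k)
    (hs : 3 ≤ n → ∑ k ∈ range (n - 1), al θ k ≤ 1) {σ τ : ℕ → ℝ}
    (hσ : ∀ k, σ k = 1 ∨ σ k = -1) (hτ : ∀ k, τ k = 1 ∨ τ k = -1)
    (hR : ∀ i m : ℕ, 2 ≤ m → i + m < n → ∀ r r' : ℝ, 0 ≤ r → r ≤ 1 → 0 ≤ r' → r' ≤ 1 →
      ((∑ k ∈ range (m + 1), l (i + k)) * (∑ k ∈ range m, al θ (i + k)) ^ 2) ^ 2 <
        flatSq (fun k => σ (i + k)) (fun k => al θ (i + k)) (cf (rh l θ) i m r r') m ∨
      ((∑ k ∈ range (m + 1), l (i + k)) * (∑ k ∈ range m, al θ (i + k)) ^ 2) ^ 2 <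
        flatSq (fun k => τ (i + k)) (fun k => al θ (i + k)) (cf (rh l θ) i m r r') m)
    {e f g : E3} (h : ON e f g) {C S : ℝ} (hC : 0 < C) (hS : 0 < S)
    (hCS : C ^ 2 + S ^ 2 = 1) (p : E3) :
    cfg n p e (fun k => (C * σ k) • f + (S * τ k) • g) (al θ) (rh l θ) ∈ freeSpace P := by
  have hpair : ∀ k, Pair e ((C * σ k) • f + (S * τ k) • g) := by
    intro k
    refine ON.pair h (C * σ k) (S * τ k) rfl ?_
    rcases hσ k with h1 | h1 <;> rcases hτ k with h2 | h2 <;> rw [h1, h2] <;> linarith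
  have hge : inner ℝ g e = (0 : ℝ) := by rw [real_inner_comm]; exact h.ac
  have hgf : inner ℝ g f = (0 : ℝ) := by rw [real_inner_comm]; exact h.bc
  have hfe : inner ℝ f e = (0 : ℝ) := by rw [real_inner_comm]; exact h.ab
  refine cfg_mem_of hD hpos hpair ?_
  intro i m hm hi r r' r0 r1 r0' r1' hz
  have hsum := (sum_part_le (al_nonneg hD.ang_nonneg hD.ang_le) (i := i) (m := m)
    (N := n - 1) (by omega)).trans (hs (by omega))
  have hL : ∑ k ∈ range (m + 1), |cf (rh l θ) i m r r' k| ≤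
      ∑ k ∈ range (m + 1), l (i + k) := by
    refine sum_le_sum fun k _ => ?_
    rw [← abs_rh hD (i + k)]
    exact abs_cf_le (rh l θ) i m r0 r1 r0' r1' k
  have k1 := flat_short (f := f) (σ := fun k => σ (i + k)) (C := C) hfe hC
    (fun k => by
      rw [inner_add_right, inner_smul_right, inner_smul_right, h.bb, h.bc]
      ring) (fun k => hσ (i + k)) (fun k => hpair (i + k))
    (fun k => al_nonneg hD.ang_nonneg hD.ang_le (i + k)) hsum hL hz
  have k2 := flat_short (f := g) (σ := fun k => τ (i + k)) (C := S) hge hS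
    (fun k => by
      rw [inner_add_right, inner_smul_right, inner_smul_right, hgf, h.cc]
      ring) (fun k => hτ (i + k)) (fun k => hpair (i + k))
    (fun k => al_nonneg hD.ang_nonneg hD.ang_le (i + k)) hsum hL hz
  rcases hR i m hm hi r r' r0 r1 r0' r1' with hr | hr
  · exact absurd k1 (not_le.2 hr)
  · exact absurd k2 (not_le.2 hr)

/-- **Theorem.** Two flat configurations of a chain are joined if any two points of links that are
not adjacent are apart in at least one of them. -/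
theorem joined_of_apart (hP : IsSimple P) (cP : Coplanar ℝ (Set.range P))
    (cQ : Coplanar ℝ (Set.range Q)) (hQ : Q ∈ freeSpace P) (hA : Apart P Q) :
    JoinedIn (freeSpace P) P Q := by
  obtain ⟨l, hl⟩ : ∃ l, l = len P := ⟨_, rfl⟩
  obtain ⟨θ, hθ⟩ : ∃ θ, θ = jointAngle P := ⟨_, rfl⟩
  have hD : Data P l θ := by rw [hl, hθ]; exact data_of_simple hP
  have hDQ : Data Q l θ := ⟨hD.pos, fun i => by rw [hQ.2.1 i, hD.len i],
    fun i j hij => by rw [hQ.2.2 i j hij, hD.ang i j hij], hD.ang_nonneg, hD.ang_le⟩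
  have hpos : ∀ k, k + 2 ≤ n → 0 < θ k := fun k hk => theta_pos hD hP hk
  have hPP : P ∈ freeSpace P := ⟨hP, fun _ => rfl, fun _ _ _ => rfl⟩
  obtain ⟨c, hcc, hc⟩ := exists_normal cP
  obtain ⟨c', hcc', hc'⟩ := exists_normal cQ
  obtain ⟨a, b, φ, hON, rfl⟩ := exists_two_frames hcc hcc'
  have hON' := ON_rot hON φ
  obtain ⟨ω, s1, hs1, eP⟩ := flat_repr hD hON hc
  obtain ⟨ω', s2, hs2, eQ⟩ := flat_repr hDQ hON' hc'
  rw [chain_flat hON hD.ang_nonneg hD.ang_le hs1] at eP
  rw [chain_flat hON' hD.ang_nonneg hD.ang_le hs2] at eQ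
  have hn1 := sn_cases (θ := θ) hs1
  have hn2 := sn_cases (θ := θ) hs2
  have hp1 : Pair (cos ω • a + sin ω • b) (-sin ω • a + cos ω • b) :=
    ON.pair (ON_rot' hON ω) 1 0 (by simp) (by norm_num)
  have hp2 : Pair (cos ω' • a + sin ω' • (cos φ • b + sin φ • c))
      (-sin ω' • a + cos ω' • (cos φ • b + sin φ • c)) :=
    ON.pair (ON_rot' hON' ω') 1 0 (by simp) (by norm_num)
  have hsm : 3 ≤ n → ∑ k ∈ range (n - 1), al θ k ≤ 1 := small_of_apart hD hDQ hA
  have hR : ∀ i m : ℕ, 2 ≤ m → i + m < n → ∀ r r' : ℝ, 0 ≤ r → r ≤ 1 → 0 ≤ r' → r' ≤ 1 →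
      ((∑ k ∈ range (m + 1), l (i + k)) * (∑ k ∈ range m, al θ (i + k)) ^ 2) ^ 2 <
        flatSq (fun k => sn θ s1 (i + k)) (fun k => al θ (i + k)) (cf (rh l θ) i m r r') m ∨
      ((∑ k ∈ range (m + 1), l (i + k)) * (∑ k ∈ range m, al θ (i + k)) ^ 2) ^ 2 <
        flatSq (fun k => sn θ s2 (i + k)) (fun k => al θ (i + k))
          (cf (rh l θ) i m r r') m := by
    intro i m hm hi r r' r0 r1 r0' r1'
    have h1 := hA i (i + m) (by omega) hi r r' r0 r1 r0' r1'
    have hL0 : 0 ≤ ∑ k ∈ range (m + 1), l (i + k) := sum_nonneg fun k _ => (hD.pos _).le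
    rw [size_eq hD hi] at h1
    rw [← dist_flat hp1 hn1 eP hm hi, ← dist_flat hp2 hn2 eQ hm hi]
    rcases h1 with h | h
    · exact Or.inl (pow_lt_pow_left₀ h (by positivity) two_ne_zero)
    · exact Or.inr (pow_lt_pow_left₀ h (by positivity) two_ne_zero)
  have key := join (p1 := vx P 0) (p2 := vx Q 0) (ω := ω) (ω' := ω')
    (φ := φ) hON (fun h C S hC hS hCS p => mem_pair hD hpos hsm hn1 hn2 hR h hC hS hCS p)
    (by rw [← eP]; exact hPP) (by rw [← eQ]; exact hQ)
  rw [← eP, ← eQ] at key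
  exact key

/-- If one configuration is roomy, then any two points are apart. -/
theorem apart_of_gap (h : Gap P) : Apart P Q := by
  intro i j hij hj r r' r0 r1 r0' r1'
  left
  exact h i j hij hj _ (mem_segment_iff'.2 ⟨r, r0, r1, rfl⟩) _
    (mem_segment_iff'.2 ⟨r', r0', r1', rfl⟩)

end

end Pool.Agent.ThinA
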