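import Pool.Agent.ThinA.Acc
import Pool.Agent.ThinA.Pair
import Pool.Agent.Thin.Generic

/-!
# One simple limit polygon
-/

set_option autoImplicit false

namespace Pool.Agent.ThinA

open Real Finset Pool.Agent.Thin Pool.Agent.Lib_helper54.Flat Filter Topology

theorem abs_tl_le (c : ℕ → ℝ) {m j : ℕ} (hj : j < m) :
    |tl c m j| ≤ ∑ k ∈ range (m + 1), |c k| := by
  have h1 : tl c m j = ∑ k ∈ Ico (j + 1) (m + 1), c k := by
    unfold tl
    rw [sum_Ico_eq_sub _ (by omega)]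
  rw [h1]
  refine (abs_sum_le_sum_abs _ _).trans (sum_le_sum_of_subset_of_nonneg ?_ fun k _ _ =>
    abs_nonneg _)
  intro k hk
  have := mem_Ico.1 hk
  exact mem_range.2 (by omega)

theorem wt_le {α c : ℕ → ℝ} (h0 : ∀ k, 0 ≤ α k) {m : ℕ} {L : ℝ}
    (hL : ∑ k ∈ range (m + 1), |c k| ≤ L) : wt α c m ≤ L * (∑ j ∈ range m, α j) ^ 2 := by
  have h1 : ∑ j ∈ range m, α j * |tl c m j| ≤ (∑ j ∈ range m, α j) * L := by
    rw [sum_mul]
    exact sum_le_sum fun j hj =>
      mul_le_mul_of_nonneg_left ((abs_tl_le c (mem_range.1 hj)).trans hL) (h0 j)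
  unfold wt
  have h2 := mul_le_mul_of_nonneg_left h1 (sum_nonneg fun j (_ : j ∈ range m) => h0 j)
  linarith

theorem tl_congr {c c' : ℕ → ℝ} {m : ℕ} (h : ∀ k, k ≤ m → c k = c' k) {j : ℕ} (hj : j < m) :
    tl c m j = tl c' m j := by
  unfold tl
  rw [sum_congr rfl fun k hk => h k (by have := mem_range.1 hk; omega),
    sum_congr (s₂ := range (j + 1)) (g := c') rfl fun k hk =>
      h k (by have := mem_range.1 hk; omega)]

theorem room_congr {d α α' c c' : ℕ → ℝ} {m : ℕ} (hα : ∀ j, j < m → α j = α' j)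
    (hc : ∀ k, k ≤ m → c k = c' k) (h : Room d α' c' m) : Room d α c m := by
  unfold Room wt at h ⊢
  have e1 : ∑ j ∈ range m, α j = ∑ j ∈ range m, α' j :=
    sum_congr rfl fun j hj => hα j (mem_range.1 hj)
  have e2 : ∑ j ∈ range m, α j * |tl c m j| = ∑ j ∈ range m, α' j * |tl c' m j| :=
    sum_congr rfl fun j hj => by rw [hα j (mem_range.1 hj), tl_congr hc (mem_range.1 hj)]
  have e3 : ∑ k ∈ range (m + 1), c k = ∑ k ∈ range (m + 1), c' k :=
    sum_congr rfl fun k hk => hc k (by have := mem_range.1 hk; omega)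
  have e4 : ∑ j ∈ range m, tl c m j * (α j * d j) = ∑ j ∈ range m, tl c' m j * (α' j * d j) :=
    sum_congr rfl fun j hj => by rw [hα j (mem_range.1 hj), tl_congr hc (mem_range.1 hj)]
  rw [e1, e2, e3, e4]
  exact h

section

variable {ℓ a : ℕ → ℝ} {fold : ℕ → Bool} {s : ℕ → ℝ}

/-- The direction angles of the limit polygon. -/
def psi1 (a s : ℕ → ℝ) (k : ℕ) : ℝ := ∑ j ∈ range k, s j * a j

theorem lim_succ (k : ℕ) : lim ℓ a fold s (k + 1) =
    lim ℓ a fold s k + (side fold k * ℓ k) • ((1 : ℝ), psi1 a s k) := by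
  unfold Pool.Agent.Thin.lim psi1
  rw [sum_range_succ, sum_range_succ]
  ext
  · simp
  · simp

theorem lim_add (i m : ℕ) : lim ℓ a fold s (i + m) = lim ℓ a fold s i +
    ∑ k ∈ range m, (side fold (i + k) * ℓ (i + k)) • ((1 : ℝ), psi1 a s (i + k)) := by
  induction m with
  | zero => simp
  | succ m ih => rw [← Nat.add_assoc, lim_succ, ih, sum_range_succ, add_assoc]

/-- The chords of the limit polygon. -/
theorem lim_chord (i m : ℕ) (hm : 1 ≤ m) (r r' : ℝ) :
    pnt (lim ℓ a fold s (i + m)) (lim ℓ a fold s (i + m + 1)) r' -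
      pnt (lim ℓ a fold s i) (lim ℓ a fold s (i + 1)) r =
      ∑ k ∈ range (m + 1), cf (fun k => side fold k * ℓ k) i m r r' k •
        ((1 : ℝ), psi1 a s (i + k)) := by
  rw [sum_cf (fun k => side fold k * ℓ k) i m hm r r' (fun k => ((1 : ℝ), psi1 a s (i + k)))]
  unfold pnt
  rw [lim_succ (i + m), lim_succ i, lim_add i m, Nat.add_zero]
  module

theorem fst_chord (i m : ℕ) (c : ℕ → ℝ) :
    (∑ k ∈ range (m + 1), c k • ((1 : ℝ), psi1 a s (i + k))).1 =
      ∑ k ∈ range (m + 1), c k := by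
  rw [Prod.fst_sum]
  simp

theorem snd_chord (i m : ℕ) (c : ℕ → ℝ) :
    (∑ k ∈ range (m + 1), c k • ((1 : ℝ), psi1 a s (i + k))).2 =
      psi1 a s i * ∑ k ∈ range (m + 1), c k +
        ∑ j ∈ range m, tl c m j * (a (i + j) * s (i + j)) := by
  rw [Prod.snd_sum]
  have h1 := parts c (fun k => psi1 a s (i + k)) m
  simp only [smul_eq_mul, Prod.smul_snd] at h1 ⊢
  rw [h1, Nat.add_zero, mul_comm (psi1 a s i)]
  congr 1
  refine sum_congr rfl fun j _ => ?_
  have h2 : psi1 a s (i + (j + 1)) = psi1 a s (i + j) + s (i + j) * a (i + j) := by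
    unfold psi1
    rw [← Nat.add_assoc, sum_range_succ]
  rw [h2]
  unfold tl
  ring

/-- Disjoint segments have a positive distance. -/
theorem exists_delta {A B C D : ℝ × ℝ} (h : Disjoint (segment ℝ A B) (segment ℝ C D)) :
    ∃ δ : ℝ, 0 < δ ∧ ∀ r r' : ℝ, 0 ≤ r → r ≤ 1 → 0 ≤ r' → r' ≤ 1 →
      δ ≤ dist (pnt A B r) (pnt C D r') := by
  have hcont : Continuous fun z : ℝ × ℝ => dist (pnt A B z.1) (pnt C D z.2) := by
    unfold pnt
    fun_prop
  obtain ⟨z, hz, hmin⟩ := (isCompact_Icc.prod isCompact_Icc :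
    IsCompact (Set.Icc (0 : ℝ) 1 ×ˢ Set.Icc (0 : ℝ) 1)).exists_isMinOn
    ⟨((0 : ℝ), (0 : ℝ)), by simp⟩ hcont.continuousOn
  refine ⟨dist (pnt A B z.1) (pnt C D z.2), ?_, ?_⟩
  · rw [dist_pos]
    intro he
    rw [Set.disjoint_left] at h
    exact h (pnt_mem hz.1.1 hz.1.2) (he ▸ pnt_mem hz.2.1 hz.2.2)
  · intro r r' r0 r1 r0' r1'
    exact hmin (a := (r, r')) ⟨⟨r0, r1⟩, ⟨r0', r1'⟩⟩

/-- For small angles there is room. -/
theorem eventually_room (ha : ∀ k, 0 ≤ a k) {i m : ℕ} (hm : 2 ≤ m)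
    (hdis : Disjoint (segment ℝ (lim ℓ a fold s i) (lim ℓ a fold s (i + 1)))
      (segment ℝ (lim ℓ a fold s (i + m)) (lim ℓ a fold s (i + m + 1)))) :
    ∀ᶠ ε in 𝓝[>] (0 : ℝ), ∀ r r' : ℝ, 0 ≤ r → r ≤ 1 → 0 ≤ r' → r' ≤ 1 →
      Room (fun j => s (i + j)) (fun j => ε * a (i + j))
        (cf (fun k => side fold k * ℓ k) i m r r') m := by
  obtain ⟨δ, hδ, hd⟩ := exists_delta hdis
  obtain ⟨A, hA⟩ : ∃ A, A = ∑ j ∈ range m, a (i + j) := ⟨_, rfl⟩
  obtain ⟨L, hL⟩ : ∃ L, L = ∑ k ∈ range (m + 1), |side fold (i + k) * ℓ (i + k)| := ⟨_, rfl⟩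
  have hA0 : 0 ≤ A := by rw [hA]; exact sum_nonneg fun j _ => ha _
  have hL0 : 0 ≤ L := by rw [hL]; exact sum_nonneg fun j _ => abs_nonneg _
  have hK0 : 0 ≤ L * A ^ 2 := by positivity
  have h1 := tendsto_mul_zero (L * A ^ 2 * (|psi1 a s i| + 2))
  filter_upwards [h1.eventually (Iio_mem_nhds hδ), self_mem_nhdsWithin,
    nhdsWithin_le_nhds (Iio_mem_nhds one_pos)] with ε h2 h3 h4
  intro r r' r0 r1 r0' r1'
  have h3' : 0 < ε := h3
  have h4' : ε < 1 := h4
  have h2' : ε * (L * A ^ 2 * (|psi1 a s i| + 2)) < δ := h2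
  by_contra hR
  unfold Room at hR
  push Not at hR
  obtain ⟨hS, hH⟩ := hR
  obtain ⟨c, hc⟩ : ∃ c, c = cf (fun k => side fold k * ℓ k) i m r r' := ⟨_, rfl⟩
  rw [← hc] at hS hH
  have hcL : ∑ k ∈ range (m + 1), |c k| ≤ L := by
    rw [hL, hc]
    exact sum_le_sum fun k _ => abs_cf_le (fun k => side fold k * ℓ k) i m r0 r1 r0' r1' k
  have hwt : wt (fun j => ε * a (i + j)) c m ≤ ε ^ 2 * (L * A ^ 2) := by
    have h5 := wt_le (α := fun j => ε * a (i + j)) (c := c)
      (fun k => mul_nonneg h3'.le (ha _)) (m := m) hcL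
    rw [← mul_sum, ← hA] at h5
    linarith [h5, mul_pow ε A 2, (by ring : L * (ε * A) ^ 2 = ε ^ 2 * (L * A ^ 2))]
  obtain ⟨S, hSe⟩ : ∃ S, S = ∑ k ∈ range (m + 1), c k := ⟨_, rfl⟩
  obtain ⟨H, hHe⟩ : ∃ H, H = ∑ j ∈ range m, tl c m j * (a (i + j) * s (i + j)) := ⟨_, rfl⟩
  have hH2 : ∑ j ∈ range m, tl c m j * (ε * a (i + j) * s (i + j)) = ε * H := by
    rw [hHe, mul_sum]
    exact sum_congr rfl fun j _ => by ring
  rw [hH2, abs_mul, abs_of_pos h3'] at hH
  rw [← hSe] at hS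
  have hH3 : |H| ≤ 2 / 5 * (ε * (L * A ^ 2)) := by
    have : ε * |H| ≤ ε * (2 / 5 * (ε * (L * A ^ 2))) := by nlinarith
    exact le_of_mul_le_mul_left this h3'
  have hS2 : |S| ≤ ε * (L * A ^ 2) := by
    have : ε ^ 2 * (L * A ^ 2) ≤ ε * (L * A ^ 2) :=
      mul_le_mul_of_nonneg_right (by nlinarith) hK0
    linarith
  -- the distance in the limit polygon
  have hdd := hd r r' r0 r1 r0' r1'
  have hch := lim_chord (ℓ := ℓ) (a := a) (fold := fold) (s := s) i m (by omega) r r'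
  rw [← hc] at hch
  have h6 : dist (pnt (lim ℓ a fold s i) (lim ℓ a fold s (i + 1)) r)
      (pnt (lim ℓ a fold s (i + m)) (lim ℓ a fold s (i + m + 1)) r') =
      max |S| |psi1 a s i * S + H| := by
    rw [dist_comm, dist_eq_norm, hch, Prod.norm_def, fst_chord, snd_chord, ← hSe, ← hHe,
      Real.norm_eq_abs, Real.norm_eq_abs]
  rw [h6] at hdd
  have h7 : |psi1 a s i * S + H| ≤ |psi1 a s i| * |S| + |H| := by
    refine (abs_add_le _ _).trans ?_
    rw [abs_mul]
  have h8 : |psi1 a s i| * |S| ≤ |psi1 a s i| * (ε * (L * A ^ 2)) :=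
    mul_le_mul_of_nonneg_left hS2 (abs_nonneg _)
  have h9 : 0 ≤ ε * (L * A ^ 2) := mul_nonneg h3'.le hK0
  have h10 : 0 ≤ |psi1 a s i| * (ε * (L * A ^ 2)) := mul_nonneg (abs_nonneg _) h9
  have h11 : max |S| |psi1 a s i * S + H| < δ := by
    apply max_lt
    · nlinarith
    · nlinarith
  linarith

end

/-- **Theorem.** If one limit polygon is simple, then the chain is flat-state connected for all
small angles. -/
theorem one_simple {n : ℕ} {ℓ a : ℕ → ℝ} {fold : ℕ → Bool} {s : ℕ → ℝ}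
    (ha : ∀ k, k + 2 ≤ n → 0 < a k) (hs : ∀ k, s k = 1 ∨ s k = -1)
    (hsim : LimSimple n ℓ a fold s) :
    ∃ ε₀ : ℝ, 0 < ε₀ ∧ ∀ ε : ℝ, 0 < ε → ε < ε₀ → ∀ P Q : Fin (n + 1) → E3,
      IsSimple P → IsSimple Q → Coplanar ℝ (Set.range P) → Coplanar ℝ (Set.range Q) →
      IsThin ℓ a fold ε P → IsThin ℓ a fold ε Q → JoinedIn (freeSpace P) P Q := by
  -- angles off the chain are set to `0`
  obtain ⟨a', ha'⟩ : ∃ a' : ℕ → ℝ, a' = fun k => if k + 2 ≤ n then a k else 0 := ⟨_, rfl⟩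
  have ha1 : ∀ k, k + 2 ≤ n → a' k = a k := fun k hk => by rw [ha']; exact if_pos hk
  have ha2 : ∀ k, 0 ≤ a' k := by
    intro k
    rw [ha']
    show 0 ≤ (if k + 2 ≤ n then a k else 0)
    split_ifs with h
    · exact (ha k h).le
    · exact le_rfl
  have hlim : ∀ k, k ≤ n → lim ℓ a' fold s k = lim ℓ a fold s k := by
    intro k hk
    unfold Pool.Agent.Thin.lim
    congr 1
    refine sum_congr rfl fun m hm => ?_
    have hm' := mem_range.1 hm
    congr 1
    refine sum_congr rfl fun j hj => ?_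
    have := mem_range.1 hj
    rw [ha1 j (by omega)]
  have hdis : ∀ i m : ℕ, 2 ≤ m → i + m < n →
      Disjoint (segment ℝ (lim ℓ a' fold s i) (lim ℓ a' fold s (i + 1)))
        (segment ℝ (lim ℓ a' fold s (i + m)) (lim ℓ a' fold s (i + m + 1))) := by
    intro i m hm hi
    rw [hlim i (by omega), hlim (i + 1) (by omega), hlim (i + m) (by omega),
      hlim (i + m + 1) (by omega)]
    exact hsim i (i + m) (by omega) hi
  have h1 : ∀ᶠ ε in 𝓝[>] (0 : ℝ), ∀ i m : Fin n, 2 ≤ m.val → i.val + m.val < n →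
      ∀ r r' : ℝ, 0 ≤ r → r ≤ 1 → 0 ≤ r' → r' ≤ 1 →
      Room (fun j => s (i.val + j)) (fun j => ε * a' (i.val + j))
        (cf (fun k => side fold k * ℓ k) i.val m.val r r') m.val := by
    rw [eventually_all]
    intro i
    rw [eventually_all]
    intro m
    by_cases hm : 2 ≤ m.val ∧ i.val + m.val < n
    · exact (eventually_room ha2 hm.1 (hdis i.val m.val hm.1 hm.2)).mono fun ε h _ _ => h
    · exact Eventually.of_forall fun ε h h' => absurd ⟨h, h'⟩ hm
  have h2 : ∀ᶠ ε in 𝓝[>] (0 : ℝ), ∀ k : Fin n, k.val + 2 ≤ n → ε * a k < π / 2 := by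
    rw [eventually_all]
    intro k
    have h3 := tendsto_mul_zero (a k)
    exact (h3.eventually (Iio_mem_nhds (by positivity : (0 : ℝ) < π / 2))).mono fun ε h _ => h
  have h3 : ∀ᶠ ε in 𝓝[>] (0 : ℝ), ε * (∑ k ∈ range (n - 1), a' k) < 3 / 5 := by
    have h4 := tendsto_mul_zero (∑ k ∈ range (n - 1), a' k)
    exact h4.eventually (Iio_mem_nhds (by norm_num : (0 : ℝ) < 3 / 5))
  obtain ⟨ε₀, hε₀, hmem⟩ := mem_nhdsGT_iff_exists_Ioo_subset.1 (h1.and (h2.and h3))
  refine ⟨ε₀, hε₀, ?_⟩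
  intro ε he0 he1 P Q hP hQ cP cQ tP tQ
  obtain ⟨k1, k2, k3⟩ := hmem ⟨he0, he1⟩
  have hQ' : Q ∈ freeSpace P := by
    refine ⟨hQ, ?_, ?_⟩
    · intro i
      have e1 := tP.1 i.val i.isLt
      have e2 := tQ.1 i.val i.isLt
      rw [vx_of_le _ i.isLt.le, vx_of_le _ i.isLt] at e1 e2
      exact e2.trans e1.symm
    · intro i j hij
      have hj := j.isLt
      have e1 := tP.2 i.val (by omega)
      have e2 := tQ.2 i.val (by omega)
      rw [← (data_of_simple hP).ang i j hij] at e1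
      rw [← (data_of_simple hQ).ang i j hij] at e2
      exact e2.trans e1.symm
  have hsmall : ∀ k, k + 2 ≤ n → 0 < ε * a k ∧ ε * a k < π / 2 := fun k hk =>
    ⟨mul_pos he0 (ha k hk), k2 ⟨k, by omega⟩ hk⟩
  have hsg : ∀ m, m < n → sg (jointAngle P) m = side fold m := by
    intro m
    induction m with
    | zero => intro _; rfl
    | succ m ih =>
      intro hm
      have h1 := ih (by omega)
      have h2 := tP.2 m (by omega)
      have h3 := hsmall m (by omega)
      have e1 : sg (jointAngle P) (m + 1) =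
        if jointAngle P m ≤ π / 2 then -sg (jointAngle P) m else sg (jointAngle P) m := rfl
      have e2 : side fold (m + 1) = if fold m = true then -side fold m else side fold m := rfl
      rw [e1, e2, h1]
      by_cases hf : fold m = true
      · rw [if_pos hf] at h2
        rw [if_pos hf, if_pos (by rw [h2]; linarith)]
      · rw [if_neg hf] at h2
        rw [if_neg hf, if_neg (by rw [h2]; linarith)]
  have hal : ∀ m, m + 2 ≤ n → al (jointAngle P) m = ε * a' m := by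
    intro m hm
    have h2 := tP.2 m hm
    have h3 := hsmall m hm
    rw [ha1 m hm]
    unfold al
    rw [h2]
    split_ifs
    · exact min_eq_left (by linarith)
    · rw [min_eq_right (by linarith)]; ring
  have hrh : ∀ m, m < n → rh (len P) (jointAngle P) m = side fold m * ℓ m := by
    intro m hm
    unfold rh len
    rw [if_pos hm, tP.1 m hm, hsg m hm, mul_comm]
  refine main_acc hP cP cQ hQ' hs (fun _ => ?_) ?_
  · rw [sum_congr rfl fun k hk => hal k (by have := mem_range.1 hk; omega), ← mul_sum]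
    exact le_of_lt k3
  · intro i m hm hi r r' r0 r1 r0' r1'
    refine room_congr (fun j hj => hal (i + j) (by omega)) ?_
      (k1 ⟨i, by omega⟩ ⟨m, by omega⟩ hm hi r r' r0 r1 r0' r1')
    intro k hk
    show cf (rh (len P) (jointAngle P)) i m r r' k =
      cf (fun k => side fold k * ℓ k) i m r r' k
    unfold cf
    split_ifs
    · rw [hrh i (by omega)]
    · rw [hrh (i + m) (by omega)]
    · rw [hrh (i + k) (by omega)]

end Pool.Agent.ThinA
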