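import Pool.Agent.ThinA.Main

/-!
# Chains with a choice of turns for which all chords have room
-/

set_option autoImplicit false

namespace Pool.Agent.ThinA

open Real Finset Pool.Agent.Thin Pool.Agent.Lib_helper54.Flat

/-- **Theorem.** If there is a choice of turns for which all chords have room, then any two flat
configurations are joined. -/
theorem main_acc {n : ℕ} {P Q : Fin (n + 1) → E3} (hP : IsSimple P)
    (cP : Coplanar ℝ (Set.range P)) (cQ : Coplanar ℝ (Set.range Q)) (hQ : Q ∈ freeSpace P)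
    {d : ℕ → ℝ} (hd : ∀ k, d k = 1 ∨ d k = -1)
    (hs : 3 ≤ n → ∑ k ∈ range (n - 1), al (jointAngle P) k ≤ 3 / 5)
    (hR : ∀ i m : ℕ, 2 ≤ m → i + m < n → ∀ r r' : ℝ, 0 ≤ r → r ≤ 1 → 0 ≤ r' → r' ≤ 1 →
      RoomAt (len P) (jointAngle P) d i m r r') : JoinedIn (freeSpace P) P Q := by
  obtain ⟨l, hl⟩ : ∃ l, l = len P := ⟨_, rfl⟩
  obtain ⟨θ, hθ⟩ : ∃ θ, θ = jointAngle P := ⟨_, rfl⟩
  rw [← hl, ← hθ] at hR
  rw [← hθ] at hs
  have hD : Data P l θ := by rw [hl, hθ]; exact data_of_simple hP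
  have hDQ : Data Q l θ := ⟨hD.pos, fun i => by rw [hQ.2.1 i, hD.len i],
    fun i j hij => by rw [hQ.2.2 i j hij, hD.ang i j hij], hD.ang_nonneg, hD.ang_le⟩
  have hpos : ∀ k, k + 2 ≤ n → 0 < θ k := fun k hk => theta_pos hD hP hk
  have hPP : P ∈ freeSpace P := ⟨hP, fun _ => rfl, fun _ _ _ => rfl⟩
  obtain ⟨c, hcc, hc⟩ := exists_normal cP
  obtain ⟨c', hcc', hc'⟩ := exists_normal cQ
  obtain ⟨a, b, φ, hON, rfl⟩ := exists_two_frames hcc hcc'
  have hON' := ON_rot hON φ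
  obtain ⟨ω, s1, hs1, eP⟩ := flat_repr hD hON hc
  obtain ⟨ω', s2, hs2, eQ⟩ := flat_repr hDQ hON' hc'
  rw [chain_flat hON hD.ang_nonneg hD.ang_le hs1] at eP
  rw [chain_flat hON' hD.ang_nonneg hD.ang_le hs2] at eQ
  have hn1 := sn_cases (θ := θ) hs1
  have hn2 := sn_cases (θ := θ) hs2
  have hR1 := mem_one hD hpos hs hd hR (ON_rot' hON ω) (vx P 0)
  have j1 := join (p1 := vx P 0) (p2 := vx P 0) (ω := ω) (ω' := ω) (φ := 0)
    hON (fun h C S hC hS hCS p => mem_mix hD hpos hs hn1 hd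
      (fun i m hm hi r r' r0 r1 r0' r1' => Or.inr (hR i m hm hi r r' r0 r1 r0' r1'))
      h hC hS hCS p)
    (by rw [← eP]; exact hPP)
    (by simpa only [cos_zero, sin_zero, one_smul, zero_smul, add_zero] using hR1)
  have j2 := join (p1 := vx P 0) (p2 := vx Q 0) (ω := ω) (ω' := ω') (φ := φ)
    hON (fun h C S hC hS hCS p => mem_mix hD hpos hs hd hn2
      (fun i m hm hi r r' r0 r1 r0' r1' => Or.inl (hR i m hm hi r r' r0 r1 r0' r1'))
      h hC hS hCS p)
    hR1 (by rw [← eQ]; exact hQ)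
  simp only [cos_zero, sin_zero, one_smul, zero_smul, add_zero] at j1
  rw [← eP] at j1
  rw [← eQ] at j2
  exact j1.trans j2

end Pool.Agent.ThinA
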