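import Pool.Agent.ThinA.Ext

/-!
# Chains whose backward links are isolated and short
-/

set_option autoImplicit false

namespace Pool.Agent.ThinA

open Real Finset Pool.Agent.Thin Pool.Agent.Lib_helper54.Flat

/-- Every vertex is a record from the left or from the right. -/
theorem records {X δ l : ℕ → ℝ} (hX : ∀ k, X (k + 1) = X k + δ k * l k)
    (hδ : ∀ k, δ k = 1 ∨ δ k = -1) {n : ℕ} (hl : ∀ k, k < n → 0 ≤ l k)
    (h1 : ∀ k, k + 1 < n → δ k = -1 → δ (k + 1) = 1 ∧ l k ≤ l (k + 1))
    (h2 : ∀ k, k + 1 < n → δ (k + 1) = -1 → δ k = 1 ∧ l (k + 1) ≤ l k) {v : ℕ}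
    (hv : v + 1 < n) :
    (∀ k, k ≤ v + 1 → X k ≤ X (v + 1)) ∨ ∀ k, v + 1 ≤ k → k ≤ n → X (v + 1) ≤ X k := by
  have left : ∀ v, v < n → (δ v = 1 → ∀ k, k ≤ v + 1 → X k ≤ X (v + 1)) ∧
      (δ v = -1 → ∀ k, k ≤ v + 1 → X k ≤ X v) := by
    intro v
    induction v with
    | zero =>
      intro h0
      have e1 := hX 0
      have e2 := hl 0 h0
      constructor
      · intro hd k hk
        rw [hd] at e1
        rcases Nat.le_one_iff_eq_zero_or_eq_one.1 hk with h | h
        · rw [h, e1]; linarith
        · rw [h]
      · intro hd k hk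
        rw [hd] at e1
        rcases Nat.le_one_iff_eq_zero_or_eq_one.1 hk with h | h
        · rw [h]
        · rw [h, e1]; linarith
    | succ v ih =>
      intro hv
      obtain ⟨i1, i2⟩ := ih (by omega)
      have e0 := hX v
      have e1 := hX (v + 1)
      have e2 := hl (v + 1) hv
      constructor
      · intro hd k hk
        rw [hd] at e1
        rcases Nat.lt_or_ge (v + 1) k with hk' | hk'
        · have : k = v + 1 + 1 := by omega
          rw [this]
        · rcases hδ v with hd' | hd'
          · have := i1 hd' k hk'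
            linarith
          · have a1 := i2 hd' k hk'
            have a2 := (h1 v hv hd').2
            rw [hd'] at e0
            linarith
      · intro hd k hk
        rw [hd] at e1
        rcases Nat.lt_or_ge (v + 1) k with hk' | hk'
        · have : k = v + 1 + 1 := by omega
          rw [this]
          linarith
        · exact i1 (h2 v hv hd).1 k hk'
  rcases hδ v with hd | hd
  · exact Or.inl ((left v (by omega)).1 hd)
  · right
    have hd1 := (h1 v hv hd).1
    have right : ∀ q, v + 1 + q < n → (δ (v + 1 + q) = 1 → X (v + 1) ≤ X (v + 1 + q)) ∧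
        (δ (v + 1 + q) = -1 → X (v + 1) ≤ X (v + 1 + q + 1)) := by
      intro q
      induction q with
      | zero =>
        intro _
        refine ⟨fun _ => le_rfl, fun h => ?_⟩
        rw [Nat.add_zero, hd1] at h
        norm_num at h
      | succ q ih =>
        intro hq
        obtain ⟨i1, i2⟩ := ih (by omega)
        have e0 := hX (v + 1 + q)
        have e1 := hX (v + 1 + q + 1)
        have e2 := hl (v + 1 + q) (by omega)
        have e3 : v + 1 + (q + 1) = v + 1 + q + 1 := by omega
        rw [e3] at hq ⊢
        constructor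
        · intro _
          rcases hδ (v + 1 + q) with h | h
          · have := i1 h
            rw [h] at e0
            linarith
          · exact i2 h
        · intro h
          obtain ⟨a1, a2⟩ := h2 (v + 1 + q) hq h
          have := i1 a1
          rw [a1] at e0
          rw [h] at e1
          linarith
    intro k hk hk'
    rcases Nat.eq_or_lt_of_le hk with h | h
    · rw [← h]
    · obtain ⟨q, hq⟩ : ∃ q, k = v + 1 + q + 1 := ⟨k - (v + 2), by omega⟩
      obtain ⟨i1, i2⟩ := right q (by omega)
      have e0 := hX (v + 1 + q)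
      have e2 := hl (v + 1 + q) (by omega)
      rw [hq]
      rcases hδ (v + 1 + q) with h | h
      · have := i1 h
        rw [h] at e0
        linarith
      · exact i2 h

/-- The chains whose backward links are isolated and short have an extreme shadow. -/
theorem extreme_of_back {n : ℕ} {P : Fin (n + 1) → E3}
    (h1 : ∀ k, k + 1 < n → dirn P k = -1 → dirn P (k + 1) = 1 ∧
      dist (vx P k) (vx P (k + 1)) ≤ dist (vx P (k + 1)) (vx P (k + 2)))
    (h2 : ∀ k, k + 1 < n → dirn P (k + 1) = -1 → dirn P k = 1 ∧
      dist (vx P (k + 1)) (vx P (k + 2)) ≤ dist (vx P k) (vx P (k + 1))) : Extreme P := by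
  intro v hv hvn
  obtain ⟨w, rfl⟩ : ∃ w, v = w + 1 := ⟨v - 1, by omega⟩
  rcases records (X := shadow P) (δ := dirn P) (l := fun k => dist (vx P k) (vx P (k + 1)))
    (fun k => sum_range_succ _ _) (fun k => by rw [dirn_eq]; exact sg_cases _ k)
    (fun _ _ => dist_nonneg) h1 h2 hvn with h | h
  · exact Or.inl h
  · exact Or.inr (Or.inr (Or.inr h))

end Pool.Agent.ThinA
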