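import Pool.Agent.Thin.Defs

/-!
# Definitions: the folded shadow of a chain
-/

set_option autoImplicit false

namespace Pool.Agent.ThinA

open Real Finset Pool.Agent.Lib_helper54.Flat

/-- The direction (`1`: to the right, `-1`: to the left) of the links of the completely folded
chain: it changes at the joints with an angle of at most `π / 2`. -/
noncomputable def dirn {n : ℕ} (P : Fin (n + 1) → E3) : ℕ → ℝ
  | 0 => 1
  | k + 1 => if jointAngle P k ≤ π / 2 then -dirn P k else dirn P k

/-- The position of the vertex `k` of the completely folded chain on the line. -/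
noncomputable def shadow {n : ℕ} (P : Fin (n + 1) → E3) (k : ℕ) : ℝ :=
  ∑ m ∈ range k, dirn P m * dist (vx P m) (vx P (m + 1))

/-- Every inner vertex of the completely folded chain is an extreme point (maximal or minimal, not
necessarily the only one) of the vertices up to it or of the vertices from it on. -/
def Extreme {n : ℕ} (P : Fin (n + 1) → E3) : Prop :=
  ∀ v : ℕ, 0 < v → v < n →
    (∀ k, k ≤ v → shadow P k ≤ shadow P v) ∨ (∀ k, k ≤ v → shadow P v ≤ shadow P k) ∨
    (∀ k, v ≤ k → k ≤ n → shadow P k ≤ shadow P v) ∨
    ∀ k, v ≤ k → k ≤ n → shadow P v ≤ shadow P k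

end Pool.Agent.ThinA
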