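import Pool.Agent.ThinA.Key

/-!
# Signed lengths of chains with folded joints and unimodal lengths
-/

set_option autoImplicit false

namespace Pool.Agent.ThinA

open Real Finset Pool.Agent.Thin

/-- Unimodal lengths and alternating signs: all tail sums are on one side. -/
theorem uni {l σ : ℕ → ℝ} (hσ : ∀ k, σ k = 1 ∨ σ k = -1) {i m p : ℕ} (hm : 2 ≤ m)
    (halt : ∀ k, k < m → σ (i + k + 1) = -σ (i + k)) (hl : ∀ k, 0 < l k)
    (h1 : ∀ k, k < m → i + k + 1 ≤ p → l (i + k) ≤ l (i + k + 1))
    (h2 : ∀ k, k < m → p ≤ i + k → l (i + k + 1) ≤ l (i + k)) {r r' : ℝ} (r0 : 0 ≤ r)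
    (r1 : r ≤ 1) (r0' : 0 ≤ r') (r1' : r' ≤ 1) (j : ℕ) (hj : j < m) :
    σ (i + j) * tl (cf (fun k => l k * σ k) i m r r') m j ≤
      |∑ k ∈ range (m + 1), cf (fun k => l k * σ k) i m r r' k| := by
  unfold tl
  obtain ⟨c, hc⟩ : ∃ c, c = cf (fun k => l k * σ k) i m r r' := ⟨_, rfl⟩
  rw [← hc]
  obtain ⟨S, hS⟩ : ∃ S, S = ∑ k ∈ range (m + 1), c k := ⟨_, rfl⟩
  rw [← hS]
  have hss : ∀ k, σ k * σ k = 1 := by
    intro k
    rcases hσ k with h | h <;> rw [h] <;> norm_num
  -- the coefficients are `σ (i + k) * b k` with `0 ≤ b k ≤ l (i + k)`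
  have hb : ∀ k, k ≤ m → 0 ≤ σ (i + k) * c k ∧ σ (i + k) * c k ≤ l (i + k) := by
    intro k hk
    rw [hc]
    unfold cf
    split_ifs with h3 h4
    · subst h3
      have := hl i
      have h5 : σ (i + 0) * ((1 - r) * (l i * σ i)) = (1 - r) * l i := by
        rw [Nat.add_zero]; linear_combination ((1 - r) * l i) * hss i
      rw [h5, Nat.add_zero]
      constructor <;> nlinarith
    · subst h4
      have := hl (i + k)
      have h5 : σ (i + k) * (r' * (l (i + k) * σ (i + k))) = r' * l (i + k) := by
        linear_combination (r' * l (i + k)) * hss (i + k)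
      rw [h5]
      constructor <;> nlinarith
    · have := hl (i + k)
      have h5 : σ (i + k) * (l (i + k) * σ (i + k)) = l (i + k) := by
        linear_combination (l (i + k)) * hss (i + k)
      rw [h5]
      exact ⟨this.le, le_rfl⟩
  have hb' : ∀ k, 0 < k → k < m → σ (i + k) * c k = l (i + k) := by
    intro k hk0 hk
    rw [hc]
    unfold cf
    rw [if_neg hk0.ne', if_neg hk.ne]
    linear_combination (l (i + k)) * hss (i + k)
  rcases Nat.lt_or_ge p (i + j + 1) with hp | hp
  · -- the lengths decrease after the joint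
    have key : ∀ q, q < m → p ≤ i + (m - 1 - q) → 
        0 ≤ -(σ (i + (m - 1 - q)) * (S - ∑ k ∈ range (m - 1 - q + 1), c k)) ∧
        -(σ (i + (m - 1 - q)) * (S - ∑ k ∈ range (m - 1 - q + 1), c k)) ≤
          l (i + (m - 1 - q) + 1) := by
      intro q
      induction q with
      | zero =>
        intro _ _
        have e1 : S - ∑ k ∈ range (m - 1 - 0 + 1), c k = c m := by
          rw [hS, Nat.sub_zero, show m - 1 + 1 = m by omega, sum_range_succ]; ring
        have e2 := halt (m - 1) (by omega)
        rw [show i + (m - 1) + 1 = i + m by omega] at e2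
        have e3 := hb m le_rfl
        rw [e1, Nat.sub_zero, show i + (m - 1) + 1 = i + m by omega]
        have e4 : -(σ (i + (m - 1)) * c m) = σ (i + m) * c m := by rw [e2]; ring
        rw [e4]
        exact e3
      | succ q ih =>
        intro hq hpq
        obtain ⟨a, ha⟩ : ∃ a, a = m - 1 - (q + 1) := ⟨_, rfl⟩
        have ha' : m - 1 - q = a + 1 := by omega
        have ih' := ih (by omega) (by omega)
        rw [ha'] at ih'
        rw [← ha] at hpq ⊢
        have e1 : S - ∑ k ∈ range (a + 1), c k =
            (S - ∑ k ∈ range (a + 1 + 1), c k) + c (a + 1) := by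
          rw [sum_range_succ _ (a + 1)]; ring
        have e2 := halt a (by omega)
        have e3 : σ (i + (a + 1)) = -σ (i + a) := by rw [← e2]; rfl
        have e4 := hb' (a + 1) (by omega) (by omega)
        have e5 := h2 (a + 1) (by omega) (by omega)
        have e6 : -(σ (i + a) * (S - ∑ k ∈ range (a + 1), c k)) =
            l (i + (a + 1)) - -(σ (i + (a + 1)) * (S - ∑ k ∈ range (a + 1 + 1), c k)) := by
          rw [e1, ← e4, e3]; ring
        rw [e6]
        have e7 : i + a + 1 = i + (a + 1) := by omega
        rw [e7]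
        constructor
        · linarith [ih'.2]
        · linarith [ih'.1]
    have h3 := key (m - 1 - j) (by omega) (by omega)
    rw [show m - 1 - (m - 1 - j) = j by omega] at h3
    have := abs_nonneg S
    linarith [h3.1]
  · -- the lengths increase up to the joint
    have key : ∀ q, q < m → i + q ≤ p → 0 ≤ σ (i + q) * ∑ k ∈ range (q + 1), c k ∧
        σ (i + q) * ∑ k ∈ range (q + 1), c k ≤ l (i + q) := by
      intro q
      induction q with
      | zero =>
        intro _ _
        have := hb 0 (by omega)
        simpa using this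
      | succ q ih =>
        intro hq hpq
        have ih' := ih (by omega) (by omega)
        have e2 := halt q (by omega)
        have e3 : σ (i + (q + 1)) = -σ (i + q) := by rw [← e2]; rfl
        have e4 := hb' (q + 1) (by omega) hq
        have e5 := h1 q (by omega) (by omega)
        have e7 : i + q + 1 = i + (q + 1) := by omega
        rw [e7] at e5
        have e6 : σ (i + (q + 1)) * ∑ k ∈ range (q + 1 + 1), c k =
            l (i + (q + 1)) - σ (i + q) * ∑ k ∈ range (q + 1), c k := by
          rw [sum_range_succ, ← e4, e3]; ring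
        rw [e6]
        constructor
        · linarith [ih'.2]
        · linarith [ih'.1]
    have h3 := key j hj (by omega)
    have h4 : σ (i + j) * S ≤ |S| := by
      rcases hσ (i + j) with h | h <;> rw [h]
      · rw [one_mul]; exact le_abs_self S
      · rw [neg_one_mul]; exact neg_le_abs S
    have e1 : σ (i + j) * (S - ∑ k ∈ range (j + 1), c k) =
        σ (i + j) * S - σ (i + j) * ∑ k ∈ range (j + 1), c k := by ring
    rw [e1]
    linarith [h3.1]

end Pool.Agent.ThinA
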