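import Pool.Agent.ThinA.Acc
import Pool.Agent.ThinA.Uni
import Pool.Agent.ThinA.Shadow

/-!
# Chains with small joint angles whose folded shadow is extreme at every vertex
-/

set_option autoImplicit false

namespace Pool.Agent.ThinA

open Real Finset Pool.Agent.Thin Pool.Agent.Lib_helper54.Flat

/-- Partial sums of the coefficients of a chord. -/
theorem sum_cf_part (ρ : ℕ → ℝ) (i m : ℕ) (r r' : ℝ) {X : ℕ → ℝ}
    (hX : ∀ k, X (k + 1) = X k + ρ k) {j : ℕ} (hj : j < m) :
    ∑ k ∈ range (j + 1), cf ρ i m r r' k = X (i + j + 1) - (X i + r * ρ i) := by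
  induction j with
  | zero =>
    rw [zero_add, sum_range_one, hX]
    unfold cf
    rw [if_pos rfl]
    ring
  | succ j ih =>
    rw [sum_range_succ, ih (by omega), hX (i + (j + 1))]
    unfold cf
    rw [if_neg (by omega), if_neg (by omega), ← Nat.add_assoc]
    ring

theorem sum_cf_all (ρ : ℕ → ℝ) (i m : ℕ) (hm : 1 ≤ m) (r r' : ℝ) {X : ℕ → ℝ}
    (hX : ∀ k, X (k + 1) = X k + ρ k) :
    ∑ k ∈ range (m + 1), cf ρ i m r r' k =
      (X (i + m) + r' * ρ (i + m)) - (X i + r * ρ i) := by
  obtain ⟨j, rfl⟩ : ∃ j, m = j + 1 := ⟨m - 1, by omega⟩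
  rw [sum_range_succ, sum_cf_part ρ i (j + 1) r r' hX (Nat.lt_succ_self j)]
  unfold cf
  rw [if_neg (by omega), if_pos rfl, ← Nat.add_assoc]
  ring

/-- The tail sums of a chord over an extreme vertex. -/
theorem side_of_extreme {ρ X : ℕ → ℝ} (hX : ∀ k, X (k + 1) = X k + ρ k) {n i m j : ℕ}
    (hj : j < m) (hi : i + m < n) {r r' : ℝ} (r0 : 0 ≤ r) (r1 : r ≤ 1) (r0' : 0 ≤ r')
    (r1' : r' ≤ 1) {d : ℝ} (hd : d = 1 ∨ d = -1)
    (h : (∀ k, k ≤ i + j + 1 → d * X k ≤ d * X (i + j + 1)) ∨
      ∀ k, i + j + 1 ≤ k → k ≤ n → d * X k ≤ d * X (i + j + 1)) :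
    d * tl (cf ρ i m r r') m j ≤ |∑ k ∈ range (m + 1), cf ρ i m r r' k| := by
  have e1 := sum_cf_all ρ i m (by omega) r r' hX
  have e2 := sum_cf_part ρ i m r r' hX hj
  unfold tl
  rw [e1, e2]
  obtain ⟨x, hx⟩ : ∃ x, x = X i + r * ρ i := ⟨_, rfl⟩
  obtain ⟨x', hx'⟩ : ∃ x', x' = X (i + m) + r' * ρ (i + m) := ⟨_, rfl⟩
  rw [← hx, ← hx']
  have e3 : d * (x' - x - (X (i + j + 1) - x)) = d * x' - d * X (i + j + 1) := by ring
  rw [e3]
  have hle : d * (x' - x) ≤ |x' - x| := by
    rcases hd with hd | hd <;> rw [hd]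
    · rw [one_mul]; exact le_abs_self _
    · rw [neg_one_mul]; exact neg_le_abs _
  have h0 := abs_nonneg (x' - x)
  rcases h with h | h
  · have a1 := h i (by omega)
    have a2 := h (i + 1) (by omega)
    have a3 : d * x ≤ d * X (i + j + 1) := by
      have : d * x = (1 - r) * (d * X i) + r * (d * X (i + 1)) := by
        rw [hx, hX i]; ring
      rw [this]
      nlinarith
    linarith
  · have a1 := h (i + m) (by omega) (by omega)
    have a2 := h (i + m + 1) (by omega) (by omega)
    have a3 : d * x' ≤ d * X (i + j + 1) := by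
      have : d * x' = (1 - r') * (d * X (i + m)) + r' * (d * X (i + m + 1)) := by
        rw [hx', hX (i + m)]; ring
      rw [this]
      nlinarith
    linarith

section

variable {n : ℕ} {P Q : Fin (n + 1) → E3}

theorem dirn_eq (P : Fin (n + 1) → E3) (k : ℕ) : dirn P k = sg (jointAngle P) k := by
  induction k with
  | zero => rfl
  | succ k ih =>
    have e1 : dirn P (k + 1) = if jointAngle P k ≤ π / 2 then -dirn P k else dirn P k := rfl
    have e2 : sg (jointAngle P) (k + 1) =
      if jointAngle P k ≤ π / 2 then -sg (jointAngle P) k else sg (jointAngle P) k := rfl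
    rw [e1, e2, ih]

/-- The vertex number `k` of the folded chain, with the lengths of the library. -/
noncomputable def shd (P : Fin (n + 1) → E3) (k : ℕ) : ℝ :=
  ∑ m ∈ range k, rh (len P) (jointAngle P) m

theorem shd_succ (P : Fin (n + 1) → E3) (k : ℕ) :
    shd P (k + 1) = shd P k + rh (len P) (jointAngle P) k := sum_range_succ _ _

theorem shd_eq (P : Fin (n + 1) → E3) {k : ℕ} (hk : k ≤ n) : shd P k = shadow P k := by
  unfold shd shadow
  refine sum_congr rfl fun m hm => ?_
  have := mem_range.1 hm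
  unfold rh len
  rw [if_pos (by omega), dirn_eq, mul_comm]

/-- **Theorem.** If all vertices of the folded shadow are extreme and the sum of the angles is at
most `3 / 5`, then the chain is flat-state connected. -/
theorem main_extreme (hP : IsSimple P) (cP : Coplanar ℝ (Set.range P))
    (cQ : Coplanar ℝ (Set.range Q)) (hQ : Q ∈ freeSpace P) (hE : Extreme P)
    (hpi : ∀ k, k + 2 ≤ n → jointAngle P k < π)
    (hs : ∑ k ∈ range (n - 1), min (jointAngle P k) (π - jointAngle P k) ≤ 3 / 5) :
    JoinedIn (freeSpace P) P Q := by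
  have hD : Data P (len P) (jointAngle P) := data_of_simple hP
  have hpos : ∀ k, k + 2 ≤ n → 0 < al (jointAngle P) k := fun k hk =>
    lt_min (theta_pos hD hP hk) (by linarith [hpi k hk])
  -- the turns
  have hex : ∀ v : ℕ, ∃ d : ℝ, (d = 1 ∨ d = -1) ∧ (v + 1 < n →
      ((∀ k, k ≤ v + 1 → d * shd P k ≤ d * shd P (v + 1)) ∨
        ∀ k, v + 1 ≤ k → k ≤ n → d * shd P k ≤ d * shd P (v + 1))) := by
    intro v
    by_cases hv : v + 1 < n
    · rcases hE (v + 1) (by omega) hv with h | h | h | h
      · refine ⟨1, Or.inl rfl, fun _ => Or.inl fun k hk => ?_⟩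
        rw [one_mul, one_mul, shd_eq P (by omega), shd_eq P (by omega)]
        exact h k hk
      · refine ⟨-1, Or.inr rfl, fun _ => Or.inl fun k hk => ?_⟩
        rw [neg_one_mul, neg_one_mul, shd_eq P (by omega), shd_eq P (by omega)]
        exact neg_le_neg (h k hk)
      · refine ⟨1, Or.inl rfl, fun _ => Or.inr fun k hk hk' => ?_⟩
        rw [one_mul, one_mul, shd_eq P (by omega), shd_eq P (by omega)]
        exact h k hk hk'
      · refine ⟨-1, Or.inr rfl, fun _ => Or.inr fun k hk hk' => ?_⟩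
        rw [neg_one_mul, neg_one_mul, shd_eq P (by omega), shd_eq P (by omega)]
        exact neg_le_neg (h k hk hk')
    · exact ⟨1, Or.inl rfl, fun h => absurd h hv⟩
  choose d hd1 hd2 using hex
  refine main_acc hP cP cQ hQ hd1 (fun _ => hs) ?_
  intro i m hm hi r r' r0 r1 r0' r1'
  refine room_of_side (fun k => hd1 (i + k))
    (fun k => al_nonneg hD.ang_nonneg hD.ang_le (i + k)) (fun k hk => hpos (i + k) (by omega))
    ((sum_part_le (al_nonneg hD.ang_nonneg hD.ang_le) (by omega)).trans hs) ?_ ?_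
  · intro j hj
    exact side_of_extreme (shd_succ P) hj hi r0 r1 r0' r1' (hd1 (i + j))
      (hd2 (i + j) (by omega))
  · refine ⟨1, one_pos, by omega, ?_⟩
    unfold cf
    rw [if_neg one_ne_zero, if_neg (by omega)]
    intro h0
    have h1 := abs_rh hD (i + 1)
    rw [h0, abs_zero] at h1
    exact (hD.pos _).ne h1

/-- **Theorem.** If the lengths are unimodal and the sum of the angles is at most `3 / 5`, then the
chain is flat-state connected. -/
theorem main_unimodal (hP : IsSimple P) (cP : Coplanar ℝ (Set.range P))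
    (cQ : Coplanar ℝ (Set.range Q)) (hQ : Q ∈ freeSpace P) {p : ℕ}
    (h1 : ∀ k, k + 1 < n → k + 1 ≤ p →
      dist (vx P k) (vx P (k + 1)) ≤ dist (vx P (k + 1)) (vx P (k + 2)))
    (h2 : ∀ k, k + 1 < n → p ≤ k →
      dist (vx P (k + 1)) (vx P (k + 2)) ≤ dist (vx P k) (vx P (k + 1)))
    (hs : ∑ k ∈ range (n - 1), jointAngle P k ≤ 3 / 5) :
    JoinedIn (freeSpace P) P Q := by
  have hD : Data P (len P) (jointAngle P) := data_of_simple hP
  have hle : ∀ k, k + 2 ≤ n → jointAngle P k ≤ 3 / 5 := fun k hk =>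
    (single_le_sum (fun i _ => hD.ang_nonneg i) (mem_range.2 (by omega))).trans hs
  have hal : ∀ k, k + 2 ≤ n → al (jointAngle P) k = jointAngle P k := fun k hk =>
    min_eq_left (by linarith [hle k hk, pi_gt_three])
  have hlen : ∀ k, k < n → len P k = dist (vx P k) (vx P (k + 1)) := fun k hk => if_pos hk
  refine main_acc hP cP cQ hQ (sg_cases (jointAngle P)) (fun _ => ?_) ?_
  · rw [sum_congr rfl fun k hk => hal k (by have := mem_range.1 hk; omega)]
    exact hs
  intro i m hm hi r r' r0 r1 r0' r1'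
  refine room_of_side (fun k => sg_cases _ (i + k))
    (fun k => al_nonneg hD.ang_nonneg hD.ang_le (i + k)) ?_ ?_ ?_ ?_
  · intro k hk
    rw [hal (i + k) (by omega)]
    exact theta_pos hD hP (by omega)
  · rw [sum_congr rfl fun k hk => hal (i + k) (by have := mem_range.1 hk; omega)]
    exact (sum_part_le hD.ang_nonneg (by omega)).trans hs
  · intro j hj
    refine uni (l := len P) (sg_cases (jointAngle P)) hm ?_ hD.pos (p := p) ?_ ?_ r0 r1 r0' r1'
      j hj
    · intro k hk
      have h3 := hle (i + k) (by omega)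
      have h4 : sg (jointAngle P) (i + k + 1) = if jointAngle P (i + k) ≤ π / 2 then
        -sg (jointAngle P) (i + k) else sg (jointAngle P) (i + k) := rfl
      rw [h4, if_pos (by linarith [pi_gt_three])]
    · intro k hk hk'
      rw [hlen (i + k) (by omega), hlen (i + k + 1) (by omega)]
      exact h1 (i + k) (by omega) hk'
    · intro k hk hk'
      rw [hlen (i + k) (by omega), hlen (i + k + 1) (by omega)]
      exact h2 (i + k) (by omega) hk'
  · refine ⟨1, one_pos, by omega, ?_⟩
    unfold cf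
    rw [if_neg one_ne_zero, if_neg (by omega)]
    intro h0
    have h3 := abs_rh hD (i + 1)
    rw [h0, abs_zero] at h3
    exact (hD.pos _).ne h3

end

end Pool.Agent.ThinA
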