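import Pool.Agent.Thin.Main

/-!
# Chords of chains which are partly turned like an accordion do not vanish
-/

set_option autoImplicit false

namespace Pool.Agent.ThinA

open Real Finset Pool.Agent.Thin

variable {V : Type} [NormedAddCommGroup V] [InnerProductSpace ℝ V]

/-- Summation by parts. -/
theorem parts (c : ℕ → ℝ) (w : ℕ → V) (m : ℕ) :
    ∑ k ∈ range (m + 1), c k • w k = (∑ k ∈ range (m + 1), c k) • w 0 +
      ∑ j ∈ range m, ((∑ k ∈ range (m + 1), c k) - ∑ k ∈ range (j + 1), c k) •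
        (w (j + 1) - w j) := by
  have h1 : ∀ m : ℕ, ∑ k ∈ range (m + 1), c k • w k = (∑ k ∈ range (m + 1), c k) • w m -
      ∑ j ∈ range m, (∑ k ∈ range (j + 1), c k) • (w (j + 1) - w j) := by
    intro m
    induction m with
    | zero => simp
    | succ m ih =>
      rw [sum_range_succ, ih, sum_range_succ (fun j => (∑ k ∈ range (j + 1), c k) •
        (w (j + 1) - w j)) m, sum_range_succ c (m + 1)]
      module
  have h2 : (∑ k ∈ range (m + 1), c k) • w m = (∑ k ∈ range (m + 1), c k) • w 0 +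
      ∑ j ∈ range m, (∑ k ∈ range (m + 1), c k) • (w (j + 1) - w j) := by
    rw [← smul_sum, sum_range_sub, ← smul_add]
    congr 1
    abel
  rw [h1 m, h2]
  simp only [sub_smul, sum_sub_distrib]
  abel

theorem pair_norm {e n : V} (h : Pair e n) : ‖e‖ = 1 ∧ ‖n‖ = 1 := by
  constructor
  · have := h.ee
    rw [real_inner_self_eq_norm_sq] at this
    exact (pow_eq_one_iff_of_nonneg (norm_nonneg _) two_ne_zero).1 this
  · have := h.nn
    rw [real_inner_self_eq_norm_sq] at this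
    exact (pow_eq_one_iff_of_nonneg (norm_nonneg _) two_ne_zero).1 this

/-- The components of the frames. -/
theorem frm_sharp {e f : V} {n : ℕ → V} (hfe : inner ℝ f e = (0 : ℝ)) {α : ℕ → ℝ} {C : ℝ}
    (hC : 0 ≤ C) (hx : ∀ k, |(inner ℝ f (n k) : ℝ)| ≤ C) (hp : ∀ k, Pair e (n k))
    (h0 : ∀ k, 0 ≤ α k) (k : ℕ) (hk : ∑ j ∈ range k, α j ≤ 1) :
    |(inner ℝ f (frm e n α k e) : ℝ)| ≤
        C * ((∑ j ∈ range k, α j) + (∑ j ∈ range k, α j) ^ 3 / 4) ∧
    (∀ v : V, inner ℝ e v = (0 : ℝ) → |(inner ℝ f (frm e n α k v) : ℝ) - inner ℝ f v| ≤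
        C * (13 / 20 * (∑ j ∈ range k, α j) ^ 2) * ‖v‖) ∧
    |(inner ℝ f (frm e n α k e) : ℝ) - ∑ j ∈ range k, α j * inner ℝ f (n j)| ≤
        C * ((∑ j ∈ range k, α j) ^ 3 / 4) := by
  induction k with
  | zero => simp [frm_zero, hfe]
  | succ k ih =>
    rw [sum_range_succ] at hk
    have hs0 : 0 ≤ ∑ j ∈ range k, α j := sum_nonneg fun j _ => h0 j
    have ht0 := h0 k
    obtain ⟨i1, i2, i3⟩ := ih (by linarith)
    have i4 := i2 (n k) (hp k).en
    rw [(pair_norm (hp k)).2, mul_one] at i4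
    have hnk : ‖n k‖ = 1 := (pair_norm (hp k)).2
    simp only [sum_range_succ]
    obtain ⟨s, hs⟩ : ∃ s, s = ∑ j ∈ range k, α j := ⟨_, rfl⟩
    obtain ⟨t, ht⟩ : ∃ t, t = α k := ⟨_, rfl⟩
    obtain ⟨E, hE⟩ : ∃ E, E = (inner ℝ f (frm e n α k e) : ℝ) := ⟨_, rfl⟩
    obtain ⟨G, hG⟩ : ∃ G, G = (inner ℝ f (frm e n α k (n k)) : ℝ) := ⟨_, rfl⟩
    obtain ⟨x, hx'⟩ : ∃ x, x = (inner ℝ f (n k) : ℝ) := ⟨_, rfl⟩
    have hxC := hx k
    rw [← hs] at hs0 hk i1 i2 i3 i4 ⊢
    rw [← ht] at ht0 hk ⊢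
    rw [← hE] at i1 i3
    rw [← hG, ← hx'] at i4
    rw [← hx'] at hxC ⊢
    have hc1 : 0 ≤ 1 - cos t := by linarith [cos_le_one t]
    have hc2 : 1 - cos t ≤ t ^ 2 / 2 := by linarith [Real.one_sub_sq_div_two_le_cos (x := t)]
    have hs1 : sin t ≤ t := sin_le ht0
    have hs2 : 0 ≤ sin t := sin_nonneg_of_nonneg_of_le_pi ht0 (by linarith [pi_gt_three])
    have hs3 : t - sin t ≤ t ^ 3 / 4 := by
      rcases ht0.eq_or_lt with h | h
      · rw [← h]; simp
      · have h7 := sin_gt_sub_cube h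
        have h8 : 0 < t ^ 3 := by positivity
        linarith
    have hGb : |G| ≤ C * (1 + 13 / 20 * s ^ 2) := by
      have h1 : |G| ≤ |G - x| + |x| := by
        have := abs_add_le (G - x) x
        rwa [sub_add_cancel] at this
      linarith
    have hGb0 := abs_nonneg G
    have hE0 := abs_nonneg E
    have hCt : 0 ≤ C * t := mul_nonneg hC ht0
    -- the direction
    have hdir : (inner ℝ f (frm e n α (k + 1) e) : ℝ) = cos t * E + sin t * G := by
      rw [frm_succ, rot_fst (hp k), map_add, map_smul, map_smul, inner_add_right,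
        inner_smul_right, inner_smul_right, ← hE, ← hG, ← ht]
    refine ⟨?_, ?_, ?_⟩
    · rw [hdir]
      have h1 : |cos t * E + sin t * G| ≤ |E| + t * |G| := by
        refine (abs_add_le _ _).trans ?_
        rw [abs_mul, abs_mul, abs_of_nonneg hs2]
        have a1 : |cos t| * |E| ≤ 1 * |E| :=
          mul_le_mul_of_nonneg_right (abs_cos_le_one t) hE0
        have a2 := mul_le_mul_of_nonneg_right hs1 hGb0
        linarith
      refine h1.trans ?_
      have h2 := mul_le_mul_of_nonneg_left hGb ht0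
      have h3 : C * (s + s ^ 3 / 4) + t * (C * (1 + 13 / 20 * s ^ 2)) ≤
          C * (s + t + (s + t) ^ 3 / 4) := by
        have e1 : C * (s + t + (s + t) ^ 3 / 4) - (C * (s + s ^ 3 / 4) +
            t * (C * (1 + 13 / 20 * s ^ 2))) =
            C * t * (s ^ 2 / 10 + 3 / 4 * s * t + t ^ 2 / 4) := by ring
        have e2 : 0 ≤ C * t * (s ^ 2 / 10 + 3 / 4 * s * t + t ^ 2 / 4) :=
          mul_nonneg hCt (by positivity)
        linarith
      linarith
    · intro v hv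
      have hrot : rot e (n k) (α k) v = v + ((-sin t * inner ℝ (n k) v) • e +
          ((cos t - 1) * inner ℝ (n k) v) • n k) := by
        rw [rot_apply, hv, ← ht]
        module
      have h1 : (inner ℝ f (frm e n α (k + 1) v) : ℝ) - inner ℝ f v =
          (inner ℝ f (frm e n α k v) - inner ℝ f v) + (-sin t * inner ℝ (n k) v) * E +
            ((cos t - 1) * inner ℝ (n k) v) * G := by
        rw [frm_succ, hrot, map_add, map_add, map_smul, map_smul, inner_add_right,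
          inner_add_right, inner_smul_right, inner_smul_right, ← hE, ← hG]
        ring
      have h2 : |(inner ℝ (n k) v : ℝ)| ≤ ‖v‖ := by
        have := abs_real_inner_le_norm (n k) v
        rwa [hnk, one_mul] at this
      have h3 := i2 v hv
      obtain ⟨N, hN⟩ : ∃ N, N = ‖v‖ := ⟨_, rfl⟩
      have hN0 : 0 ≤ N := by rw [hN]; exact norm_nonneg _
      rw [← hN] at h2 h3 ⊢
      have hb0 := abs_nonneg (inner ℝ (n k) v : ℝ)
      rw [h1]
      refine (abs_add_three _ _ _).trans ?_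
      rw [abs_mul, abs_mul, abs_mul, abs_mul, abs_neg, abs_of_nonneg hs2,
        abs_of_nonpos (by linarith : cos t - 1 ≤ 0)]
      have a1 : sin t * |(inner ℝ (n k) v : ℝ)| * |E| ≤ t * N * (C * (s + s ^ 3 / 4)) :=
        mul_le_mul (mul_le_mul hs1 h2 hb0 ht0) i1 hE0 (mul_nonneg ht0 hN0)
      have a2 : -(cos t - 1) * |(inner ℝ (n k) v : ℝ)| * |G| ≤
          t ^ 2 / 2 * N * (C * (1 + 13 / 20 * s ^ 2)) :=
        mul_le_mul (mul_le_mul (by linarith) h2 hb0 (by positivity)) hGb hGb0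
          (mul_nonneg (by positivity) hN0)
      have h4 : C * (13 / 20 * s ^ 2) * N + t * N * (C * (s + s ^ 3 / 4)) +
          t ^ 2 / 2 * N * (C * (1 + 13 / 20 * s ^ 2)) ≤ C * (13 / 20 * (s + t) ^ 2) * N := by
        have e1 : C * (13 / 20 * (s + t) ^ 2) * N - (C * (13 / 20 * s ^ 2) * N +
            t * N * (C * (s + s ^ 3 / 4)) + t ^ 2 / 2 * N * (C * (1 + 13 / 20 * s ^ 2))) =
            C * t * N * (s * (3 / 10 - s ^ 2 / 4) + t * (3 / 20 - 13 / 40 * s ^ 2)) := by ring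
        have e2 : 0 ≤ s * (3 / 10 - s ^ 2 / 4) + t * (3 / 20 - 13 / 40 * s ^ 2) := by
          have q1 : s ^ 2 ≤ 1 := by nlinarith
          have q2 : t * s ^ 2 ≤ (1 - s) * s ^ 2 :=
            mul_le_mul_of_nonneg_right (by linarith) (sq_nonneg s)
          nlinarith [mul_nonneg hs0 (by linarith : (0:ℝ) ≤ 1 - s), mul_nonneg hs0 ht0]
        have := mul_nonneg (mul_nonneg hCt hN0) e2
        linarith
      linarith
    · rw [hdir]
      have e1 : cos t * E + sin t * G - (∑ j ∈ range k, α j * inner ℝ f (n j) + t * x) =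
          (E - ∑ j ∈ range k, α j * inner ℝ f (n j)) + (-((1 - cos t) * E) +
            sin t * (G - x) + -((t - sin t) * x)) := by ring
      have h1 : |cos t * E + sin t * G - (∑ j ∈ range k, α j * inner ℝ f (n j) + t * x)| ≤
          |E - ∑ j ∈ range k, α j * inner ℝ f (n j)| +
            ((1 - cos t) * |E| + sin t * |G - x| + (t - sin t) * |x|) := by
        rw [e1]
        refine (abs_add_le _ _).trans ?_
        refine add_le_add le_rfl ?_
        refine (abs_add_three _ _ _).trans ?_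
        rw [abs_neg, abs_neg, abs_mul, abs_mul, abs_mul, abs_of_nonneg hc1, abs_of_nonneg hs2,
          abs_of_nonneg (by linarith : 0 ≤ t - sin t)]
      refine h1.trans ?_
      have a1 : (1 - cos t) * |E| ≤ t ^ 2 / 2 * (C * (s + s ^ 3 / 4)) :=
        mul_le_mul hc2 i1 hE0 (by positivity)
      have a2 : sin t * |G - x| ≤ t * (C * (13 / 20 * s ^ 2)) :=
        mul_le_mul hs1 i4 (abs_nonneg _) ht0
      have a3 : (t - sin t) * |x| ≤ t ^ 3 / 4 * C :=
        mul_le_mul hs3 hxC (abs_nonneg x) (by positivity)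
      have h4 : C * (s ^ 3 / 4) + (t ^ 2 / 2 * (C * (s + s ^ 3 / 4)) +
          t * (C * (13 / 20 * s ^ 2)) + t ^ 3 / 4 * C) ≤ C * ((s + t) ^ 3 / 4) := by
        have e2 : C * ((s + t) ^ 3 / 4) - (C * (s ^ 3 / 4) + (t ^ 2 / 2 *
            (C * (s + s ^ 3 / 4)) + t * (C * (13 / 20 * s ^ 2)) + t ^ 3 / 4 * C)) =
            C * t * (s ^ 2 / 10 + s * t * (1 / 4 - s ^ 2 / 8)) := by ring
        have e3 : 0 ≤ s ^ 2 / 10 + s * t * (1 / 4 - s ^ 2 / 8) := by
          have q1 : s ^ 2 ≤ 1 := by nlinarith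
          have q2 : 0 ≤ s * t := mul_nonneg hs0 ht0
          have q3 : 0 ≤ s * t * (1 / 4 - s ^ 2 / 8) := mul_nonneg q2 (by linarith)
          positivity
        have := mul_nonneg hCt e3
        linarith
      linarith

/-- The steps of the directions. -/
theorem step {e f : V} {n : ℕ → V} (hfe : inner ℝ f e = (0 : ℝ)) {α : ℕ → ℝ} {C : ℝ}
    (hC : 0 ≤ C) (hx : ∀ k, |(inner ℝ f (n k) : ℝ)| ≤ C) (hp : ∀ k, Pair e (n k))
    (h0 : ∀ k, 0 ≤ α k) (j : ℕ) {A : ℝ} (hA : ∑ i ∈ range (j + 1), α i ≤ A) (hA' : A ≤ 3 / 5) :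
    |(inner ℝ f (frm e n α (j + 1) e - frm e n α j e) : ℝ) - α j * inner ℝ f (n j)| ≤
      2 / 5 * C * A * α j ∧
    |(inner ℝ e (frm e n α (j + 1) e - frm e n α j e) : ℝ)| ≤ A * α j := by
  rw [sum_range_succ] at hA
  have hs0 : 0 ≤ ∑ i ∈ range j, α i := sum_nonneg fun i _ => h0 i
  have ht0 := h0 j
  obtain ⟨he, hn⟩ := pair_norm (hp j)
  obtain ⟨h1, h2', -⟩ := frm_sharp hfe hC hx hp h0 j (by linarith)
  have h2 := h2' (n j) (hp j).en
  have h3 := frm_sub hp h0 j (n j)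
  rw [hn, mul_one] at h2 h3
  obtain ⟨s, hs⟩ : ∃ s, s = ∑ j ∈ range j, α j := ⟨_, rfl⟩
  obtain ⟨t, ht⟩ : ∃ t, t = α j := ⟨_, rfl⟩
  rw [← hs] at hs0 hA h1 h2 h3
  rw [← ht] at ht0 hA ⊢
  have hstep : frm e n α (j + 1) e - frm e n α j e =
      (cos t - 1) • frm e n α j e + sin t • frm e n α j (n j) := by
    rw [frm_succ, rot_fst (hp j), map_add, map_smul, map_smul, ← ht]
    module
  have hc1 : 0 ≤ 1 - cos t := by linarith [cos_le_one t]
  have hc2 : 1 - cos t ≤ t ^ 2 / 2 := by linarith [Real.one_sub_sq_div_two_le_cos (x := t)]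
  have hs1 : sin t ≤ t := sin_le ht0
  have hs2 : 0 ≤ sin t := sin_nonneg_of_nonneg_of_le_pi ht0 (by linarith [pi_gt_three])
  have hs3 : t - sin t ≤ t ^ 3 / 4 := by
    rcases ht0.eq_or_lt with h | h
    · rw [← h]; simp
    · have h7 := sin_gt_sub_cube h
      have h8 : 0 < t ^ 3 := by positivity
      linarith
  have hA0 : 0 ≤ A := by linarith
  constructor
  · rw [hstep, inner_add_right, inner_smul_right, inner_smul_right]
    obtain ⟨x, hx'⟩ : ∃ x, x = (inner ℝ f (n j) : ℝ) := ⟨_, rfl⟩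
    obtain ⟨p, hp'⟩ : ∃ p, p = (inner ℝ f (frm e n α j e) : ℝ) := ⟨_, rfl⟩
    obtain ⟨q, hq'⟩ : ∃ q, q = (inner ℝ f (frm e n α j (n j)) : ℝ) := ⟨_, rfl⟩
    have hxC := hx j
    rw [← hx'] at hxC h2 ⊢
    rw [← hp'] at h1 ⊢
    rw [← hq'] at h2 ⊢
    have e1 : (cos t - 1) * p + sin t * q - t * x =
        -((1 - cos t) * p) + sin t * (q - x) + -((t - sin t) * x) := by ring
    have h4 : |(cos t - 1) * p + sin t * q - t * x| ≤
        (1 - cos t) * |p| + sin t * |q - x| + (t - sin t) * |x| := by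
      rw [e1]
      refine (abs_add_three _ _ _).trans ?_
      rw [abs_neg, abs_neg, abs_mul, abs_mul, abs_mul, abs_of_nonneg hc1, abs_of_nonneg hs2,
        abs_of_nonneg (by linarith : 0 ≤ t - sin t)]
    refine h4.trans ?_
    have a1 : (1 - cos t) * |p| ≤ t ^ 2 / 2 * (C * (s + s ^ 3 / 4)) :=
      mul_le_mul hc2 h1 (abs_nonneg _) (by positivity)
    have a2 : sin t * |q - x| ≤ t * (C * (13 / 20 * s ^ 2)) :=
      mul_le_mul hs1 h2 (abs_nonneg _) ht0
    have a3 : (t - sin t) * |x| ≤ t ^ 3 / 4 * C :=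
      mul_le_mul hs3 hxC (abs_nonneg x) (by positivity)
    have a4 : t / 2 * (s + s ^ 3 / 4) + 13 / 20 * s ^ 2 + t ^ 2 / 4 ≤ 2 / 5 * A := by
      have b1 : (s + t) ^ 2 ≤ 3 / 5 * A := by nlinarith
      have b2 : t * s ^ 3 ≤ t * s := by
        have c1 : s ^ 2 ≤ 1 := by nlinarith
        have : s ^ 3 ≤ s := by nlinarith
        exact mul_le_mul_of_nonneg_left this ht0
      nlinarith [mul_nonneg hs0 ht0]
    have a5 := mul_le_mul_of_nonneg_left a4 (mul_nonneg hC ht0)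
    have a6 : t ^ 2 / 2 * (C * (s + s ^ 3 / 4)) + t * (C * (13 / 20 * s ^ 2)) +
        t ^ 3 / 4 * C = C * t * (t / 2 * (s + s ^ 3 / 4) + 13 / 20 * s ^ 2 + t ^ 2 / 4) := by
      ring
    have a7 : C * t * (2 / 5 * A) = 2 / 5 * C * A * t := by ring
    linarith
  · rw [hstep, inner_add_right, inner_smul_right, inner_smul_right]
    have h5 : |(inner ℝ e (frm e n α j e) : ℝ)| ≤ 1 := by
      have := abs_real_inner_le_norm e (frm e n α j e)
      rw [frm_norm hp, he, mul_one] at this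
      exact this
    have h6 : |(inner ℝ e (frm e n α j (n j)) : ℝ)| ≤ s := by
      have e2 : (inner ℝ e (frm e n α j (n j)) : ℝ) = inner ℝ e (frm e n α j (n j) - n j) := by
        rw [inner_sub_right, (hp j).en, sub_zero]
      rw [e2]
      have := abs_real_inner_le_norm e (frm e n α j (n j) - n j)
      rw [he, one_mul] at this
      exact this.trans h3
    refine (abs_add_le _ _).trans ?_
    rw [abs_mul, abs_mul, abs_of_nonneg hs2, abs_of_nonpos (by linarith : cos t - 1 ≤ 0)]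
    have a1 : -(cos t - 1) * |(inner ℝ e (frm e n α j e) : ℝ)| ≤ t ^ 2 / 2 * 1 :=
      mul_le_mul (by linarith) h5 (abs_nonneg _) (by positivity)
    have a2 : sin t * |(inner ℝ e (frm e n α j (n j)) : ℝ)| ≤ t * s :=
      mul_le_mul hs1 h6 (abs_nonneg _) ht0
    nlinarith

/-- The sum of the terms after the term `j`. -/
noncomputable def tl (c : ℕ → ℝ) (m j : ℕ) : ℝ :=
  (∑ k ∈ range (m + 1), c k) - ∑ k ∈ range (j + 1), c k

/-- The weight of a chord: it bounds the deviation from the linear approximation. -/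
noncomputable def wt (α c : ℕ → ℝ) (m : ℕ) : ℝ :=
  (∑ j ∈ range m, α j) * ∑ j ∈ range m, α j * |tl c m j|

/-- The linear approximation of the chord with the coefficients `c`, the turning angles `α` and
the turns `d` is not small. -/
def Room (d α c : ℕ → ℝ) (m : ℕ) : Prop :=
  wt α c m < |∑ k ∈ range (m + 1), c k| ∨
    2 / 5 * wt α c m < |∑ j ∈ range m, tl c m j * (α j * d j)|

/-- **Key lemma.** The two components of the chords. -/
theorem comps {e f : V} {n : ℕ → V} (hfe : inner ℝ f e = (0 : ℝ)) {d α : ℕ → ℝ} {C : ℝ}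
    (hC : 0 ≤ C) (hx : ∀ k, (inner ℝ f (n k) : ℝ) = C * d k) (hd : ∀ k, d k = 1 ∨ d k = -1)
    (hp : ∀ k, Pair e (n k)) (h0 : ∀ k, 0 ≤ α k) {m : ℕ}
    (hA : ∑ j ∈ range m, α j ≤ 3 / 5) (c : ℕ → ℝ) :
    |(inner ℝ e (∑ k ∈ range (m + 1), c k • frm e n α k e) : ℝ) - ∑ k ∈ range (m + 1), c k| ≤
      wt α c m ∧
    |(inner ℝ f (∑ k ∈ range (m + 1), c k • frm e n α k e) : ℝ) -
      C * ∑ j ∈ range m, tl c m j * (α j * d j)| ≤ 2 / 5 * C * wt α c m := by
  have hle : ∀ j < m, ∑ i ∈ range (j + 1), α i ≤ ∑ i ∈ range m, α i := fun j hj =>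
    sum_le_sum_of_subset_of_nonneg (range_subset_range.2 hj) fun i _ _ => h0 i
  have hxC : ∀ k, |(inner ℝ f (n k) : ℝ)| ≤ C := by
    intro k
    rw [hx k]
    rcases hd k with h | h <;> rw [h] <;> simp [abs_of_nonneg hC]
  have hst := fun j hj => step hfe hC hxC hp h0 j (hle j hj) hA
  obtain ⟨A, hAe⟩ : ∃ A, A = ∑ i ∈ range m, α i := ⟨_, rfl⟩
  simp only [← hAe] at hst
  obtain ⟨D, hD⟩ : ∃ D : ℕ → V, D = fun j => frm e n α (j + 1) e - frm e n α j e := ⟨_, rfl⟩
  have hDj : ∀ j, frm e n α (j + 1) e - frm e n α j e = D j := fun j => by rw [hD]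
  have hXj : ∀ j, (∑ k ∈ range (m + 1), c k) - ∑ k ∈ range (j + 1), c k = tl c m j :=
    fun j => rfl
  simp only [hDj] at hst
  rw [parts, frm_zero]
  simp only [hXj, hDj]
  have hee := (hp 0).ee
  unfold wt
  rw [← hAe]
  constructor
  · rw [inner_add_right, inner_smul_right, hee, mul_one, add_sub_cancel_left, inner_sum, mul_sum]
    refine (abs_sum_le_sum_abs _ _).trans (sum_le_sum fun j hj => ?_)
    have h5 := (hst j (mem_range.1 hj)).2
    rw [inner_smul_right, abs_mul]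
    have h6 := mul_le_mul_of_nonneg_left h5 (abs_nonneg (tl c m j))
    linarith
  · rw [inner_add_right, inner_smul_right, hfe, mul_zero, zero_add, inner_sum, mul_sum,
      ← sum_sub_distrib, mul_sum, mul_sum]
    refine (abs_sum_le_sum_abs _ _).trans (sum_le_sum fun j hj => ?_)
    have h5 := (hst j (mem_range.1 hj)).1
    rw [hx j] at h5
    have e1 : (inner ℝ f (tl c m j • D j) : ℝ) - C * (tl c m j * (α j * d j)) =
        tl c m j * (inner ℝ f (D j) - α j * (C * d j)) := by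
      rw [inner_smul_right]; ring
    rw [e1, abs_mul]
    have h6 := mul_le_mul_of_nonneg_left h5 (abs_nonneg (tl c m j))
    linarith

theorem wt_nonneg {α : ℕ → ℝ} (h0 : ∀ k, 0 ≤ α k) (c : ℕ → ℝ) (m : ℕ) : 0 ≤ wt α c m :=
  mul_nonneg (sum_nonneg fun j _ => h0 j)
    (sum_nonneg fun j _ => mul_nonneg (h0 j) (abs_nonneg _))

/-- Chords with room do not vanish. -/
theorem chord_ne {e f : V} {n : ℕ → V} (hfe : inner ℝ f e = (0 : ℝ)) {d α : ℕ → ℝ} {C : ℝ}
    (hC : 0 < C) (hx : ∀ k, (inner ℝ f (n k) : ℝ) = C * d k) (hd : ∀ k, d k = 1 ∨ d k = -1)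
    (hp : ∀ k, Pair e (n k)) (h0 : ∀ k, 0 ≤ α k) {m : ℕ}
    (hA : ∑ j ∈ range m, α j ≤ 3 / 5) (c : ℕ → ℝ) (hR : Room d α c m) :
    ∑ k ∈ range (m + 1), c k • frm e n α k e ≠ 0 := by
  intro hz
  obtain ⟨h1, h2⟩ := comps hfe hC.le hx hd hp h0 hA c
  rw [hz, inner_zero_right, zero_sub, abs_neg] at h1 h2
  rw [abs_mul, abs_of_pos hC] at h2
  rcases hR with h | h
  · linarith
  · have h3 : |∑ j ∈ range m, tl c m j * (α j * d j)| ≤ 2 / 5 * wt α c m := by
      have : C * |∑ j ∈ range m, tl c m j * (α j * d j)| ≤ C * (2 / 5 * wt α c m) := by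
        linarith
      exact le_of_mul_le_mul_left this hC
    linarith

/-- If all tail sums are on one side, there is room. -/
theorem room_of_side {d α c : ℕ → ℝ} {m : ℕ} (hd : ∀ k, d k = 1 ∨ d k = -1)
    (h0 : ∀ k, 0 ≤ α k) (hα : ∀ k < m, 0 < α k) (hA : ∑ j ∈ range m, α j ≤ 3 / 5)
    (hdef : ∀ j < m, d j * tl c m j ≤ |∑ k ∈ range (m + 1), c k|)
    (hne : ∃ k, 0 < k ∧ k < m ∧ c k ≠ 0) : Room d α c m := by
  by_contra hR
  unfold Room at hR
  push Not at hR
  obtain ⟨hS, hH⟩ := hR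
  obtain ⟨S, hSe⟩ : ∃ S, S = ∑ k ∈ range (m + 1), c k := ⟨_, rfl⟩
  rw [← hSe] at hS hdef
  obtain ⟨A, hAe⟩ : ∃ A, A = ∑ i ∈ range m, α i := ⟨_, rfl⟩
  obtain ⟨y, hy⟩ : ∃ y : ℕ → ℝ, y = fun j => |S| - d j * tl c m j := ⟨_, rfl⟩
  have hy0 : ∀ j < m, 0 ≤ y j := by
    intro j hj
    rw [hy]
    exact sub_nonneg.2 (hdef j hj)
  obtain ⟨Y, hYe⟩ : ∃ Y, Y = ∑ j ∈ range m, α j * y j := ⟨_, rfl⟩
  have hY0 : 0 ≤ Y := by
    rw [hYe]
    exact sum_nonneg fun j hj => mul_nonneg (h0 j) (hy0 j (mem_range.1 hj))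
  have hA0 : 0 ≤ A := by rw [hAe]; exact sum_nonneg fun j _ => h0 j
  have hS0 := abs_nonneg S
  have hHe : ∑ j ∈ range m, tl c m j * (α j * d j) = A * |S| - Y := by
    rw [hAe, hYe, sum_mul, ← sum_sub_distrib]
    refine sum_congr rfl fun j _ => ?_
    rw [hy]
    ring
  have hW : ∑ j ∈ range m, α j * |tl c m j| ≤ Y + A * |S| := by
    rw [hAe, hYe, sum_mul, ← sum_add_distrib]
    refine sum_le_sum fun j hj => ?_
    rw [← mul_add]
    refine mul_le_mul_of_nonneg_left ?_ (h0 j)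
    have h1 := hy0 j (mem_range.1 hj)
    have h2 : d j * tl c m j = |S| - y j := by rw [hy]; ring
    have h3 : |tl c m j| = |d j * tl c m j| := by
      rw [abs_mul]
      rcases hd j with h | h <;> rw [h] <;> simp
    rw [h3, h2, abs_le]
    constructor <;> linarith
  rw [hHe] at hH
  unfold wt at hS hH
  rw [← hAe] at hS hH hA
  obtain ⟨W, hWe⟩ : ∃ W, W = ∑ j ∈ range m, α j * |tl c m j| := ⟨_, rfl⟩
  rw [← hWe] at hS hH hW
  have hW0 : 0 ≤ W := by
    rw [hWe]; exact sum_nonneg fun j _ => mul_nonneg (h0 j) (abs_nonneg _)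
  have h1 : Y ≤ A * |S| + 2 / 5 * (A * W) := by
    have := (abs_le.1 hH).1
    linarith
  have hAW : A * W ≤ 3 / 5 * W := mul_le_mul_of_nonneg_right hA hW0
  have hAS : A * |S| ≤ 3 / 5 * |S| := mul_le_mul_of_nonneg_right hA hS0
  have h2 : 19 * Y ≤ 93 / 5 * |S| := by linarith
  have h3 : |S| ≤ 18 / 19 * |S| := by linarith
  have hSz : |S| = 0 := by linarith
  have hYz : Y = 0 := by rw [hSz] at h2; linarith
  have hyz : ∀ j < m, y j = 0 := by
    intro j hj
    rw [hYe] at hYz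
    have h4 := (sum_eq_zero_iff_of_nonneg fun j hj => mul_nonneg (h0 j)
      (hy0 j (mem_range.1 hj))).1 hYz j (mem_range.2 hj)
    exact (mul_eq_zero.1 h4).resolve_left (hα j hj).ne'
  have hXz : ∀ j < m, tl c m j = 0 := by
    intro j hj
    have h4 := hyz j hj
    rw [hy] at h4
    have h5 : d j * tl c m j = 0 := by
      have : |S| - d j * tl c m j = 0 := h4
      linarith
    rcases hd j with h | h <;> rw [h] at h5 <;> linarith
  obtain ⟨k, hk0, hkm, hck⟩ := hne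
  apply hck
  have h6 := hXz k hkm
  have h7 := hXz (k - 1) (by omega)
  unfold tl at h6 h7
  rw [show k - 1 + 1 = k by omega] at h7
  rw [sum_range_succ c k] at h6
  linarith

end Pool.Agent.ThinA
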