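import Pool.Agent.ThinA.Key

/-!
# The motion between two flat configurations without a common narrow place
-/

set_option autoImplicit false

namespace Pool.Agent.ThinA

open Real Finset Pool.Agent.Thin Pool.Agent.Lib_helper54.Flat

section

variable {n : ℕ} {P : Fin (n + 1) → E3} {l θ : ℕ → ℝ}

/-- A configuration is in the free space if its chords do not vanish. -/
theorem cfg_mem_of (hD : Data P l θ) (hpos : ∀ k, k + 2 ≤ n → 0 < θ k) {p e : E3}
    {nn : ℕ → E3} (hpair : ∀ k, Pair e (nn k))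
    (hch : ∀ i m : ℕ, 2 ≤ m → i + m < n → ∀ r r' : ℝ, 0 ≤ r → r ≤ 1 → 0 ≤ r' → r' ≤ 1 →
      ∑ k ∈ range (m + 1), cf (rh l θ) i m r r' k •
        frm e (fun j => nn (i + j)) (fun j => al θ (i + j)) k e ≠ 0) :
    cfg n p e nn (al θ) (rh l θ) ∈ freeSpace P := by
  refine ⟨⟨?_, ?_, ?_⟩, ?_, ?_⟩
  · intro i he
    have h1 := dist_vtt hD (p := p) hpair i.val
    have h2 : vtt p e nn (al θ) (rh l θ) i.val = vtt p e nn (al θ) (rh l θ) (i.val + 1) := he
    rw [← h2, dist_self] at h1
    exact absurd h1 (hD.pos _).ne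
  · intro i j hij
    rw [Set.disjoint_left]
    intro z hz1 hz2
    obtain ⟨m, hm⟩ : ∃ m, j.val = i.val + m := ⟨j.val - i.val, by omega⟩
    have hm2 : 2 ≤ m := by omega
    have hj := j.isLt
    rw [mem_segment_iff'] at hz1 hz2
    obtain ⟨r, r0, r1, hr⟩ := hz1
    obtain ⟨r', r0', r1', hr'⟩ := hz2
    have e1 : cfg n p e nn (al θ) (rh l θ) i.castSucc = vtt p e nn (al θ) (rh l θ) i.val := rfl
    have e2 : cfg n p e nn (al θ) (rh l θ) i.succ = vtt p e nn (al θ) (rh l θ) (i.val + 1) := rfl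
    have e3 : cfg n p e nn (al θ) (rh l θ) j.castSucc =
        vtt p e nn (al θ) (rh l θ) (i.val + m) := by rw [← hm]; rfl
    have e4 : cfg n p e nn (al θ) (rh l θ) j.succ =
        vtt p e nn (al θ) (rh l θ) (i.val + m + 1) := by rw [← hm]; rfl
    rw [e1, e2, vtt_succ p e _ _ _ i.val, add_sub_cancel_left] at hr
    rw [e3, e4, vtt_succ p e _ _ _ (i.val + m), add_sub_cancel_left] at hr'
    have h1 := chord_eq p e nn (al θ) (rh l θ) i.val m (by omega) r r'
    rw [← hr, ← hr', sub_self] at h1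
    have h2 : ∑ k ∈ range (m + 1), cf (rh l θ) i.val m r r' k •
        frm e (fun j => nn (i.val + j)) (fun j => al θ (i.val + j)) k e = 0 := by
      have h3 := frm_norm hpair (al θ) i.val (∑ k ∈ range (m + 1), cf (rh l θ) i.val m r r' k •
        frm e (fun j => nn (i.val + j)) (fun j => al θ (i.val + j)) k e)
      rw [← h1, norm_zero] at h3
      exact norm_eq_zero.1 h3.symm
    exact hch i.val m hm2 (by omega) r r' r0 r1 r0' r1' h2
  · intro i j hij
    have hj := j.isLt
    have h1 := angle_vtt hD (p := p) hpair i.val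
    have h2 := hpos i.val (by omega)
    have e4 : cfg n p e nn (al θ) (rh l θ) j.succ = vtt p e nn (al θ) (rh l θ) (i.val + 2) := by
      change vtt p e nn (al θ) (rh l θ) (j.val + 1) = _
      rw [hij]
    have e3 : cfg n p e nn (al θ) (rh l θ) j.castSucc =
        vtt p e nn (al θ) (rh l θ) (i.val + 1) := by
      change vtt p e nn (al θ) (rh l θ) j.val = _
      rw [hij]
    rw [e3, e4]
    apply adj (A := vtt p e nn (al θ) (rh l θ) i.val) (B := vtt p e nn (al θ) (rh l θ) (i.val + 1))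
    rw [h1]
    exact h2.ne'
  · intro i
    rw [hD.len i]
    exact dist_vtt hD hpair i.val
  · intro i j hij
    rw [hD.ang i j hij, ← angle_vtt hD (p := p) hpair i.val]
    have e4 : cfg n p e nn (al θ) (rh l θ) j.succ = vtt p e nn (al θ) (rh l θ) (i.val + 2) := by
      change vtt p e nn (al θ) (rh l θ) (j.val + 1) = _
      rw [hij]
    rw [e4]
    rfl

/-- The chord between the point with the parameter `r` of the link `i` and the point with the
parameter `r'` of the link `i + m` has room, for the turns `d`. -/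
def RoomAt (l θ d : ℕ → ℝ) (i m : ℕ) (r r' : ℝ) : Prop :=
  Room (fun j => d (i + j)) (fun j => al θ (i + j)) (cf (rh l θ) i m r r') m

/-- Sums over a part of the joints. -/
theorem sum_part_le {θ : ℕ → ℝ} (h0 : ∀ k, 0 ≤ θ k) {i m N : ℕ} (h : i + m ≤ N) :
    ∑ k ∈ range m, θ (i + k) ≤ ∑ k ∈ range N, θ k := by
  have h1 : ∑ k ∈ range m, θ (i + k) = ∑ k ∈ Ico i (i + m), θ k := by
    rw [sum_Ico_eq_sum_range, Nat.add_sub_cancel_left]
  rw [h1]
  refine sum_le_sum_of_subset_of_nonneg ?_ fun k _ _ => h0 k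
  intro k hk
  have := mem_Ico.1 hk
  exact mem_range.2 (by omega)

/-- The configurations during the motion. -/
theorem mem_mix (hD : Data P l θ) (hpos : ∀ k, k + 2 ≤ n → 0 < θ k)
    (hs : 3 ≤ n → ∑ k ∈ range (n - 1), al θ k ≤ 3 / 5) {σ τ : ℕ → ℝ}
    (hσ : ∀ k, σ k = 1 ∨ σ k = -1) (hτ : ∀ k, τ k = 1 ∨ τ k = -1)
    (hR : ∀ i m : ℕ, 2 ≤ m → i + m < n → ∀ r r' : ℝ, 0 ≤ r → r ≤ 1 → 0 ≤ r' → r' ≤ 1 →
      RoomAt l θ σ i m r r' ∨ RoomAt l θ τ i m r r')
    {e f g : E3} (h : ON e f g) {C S : ℝ} (hC : 0 < C) (hS : 0 < S)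
    (hCS : C ^ 2 + S ^ 2 = 1) (p : E3) :
    cfg n p e (fun k => (C * σ k) • f + (S * τ k) • g) (al θ) (rh l θ) ∈ freeSpace P := by
  have hpair : ∀ k, Pair e ((C * σ k) • f + (S * τ k) • g) := by
    intro k
    refine ON.pair h (C * σ k) (S * τ k) rfl ?_
    rcases hσ k with h1 | h1 <;> rcases hτ k with h2 | h2 <;> rw [h1, h2] <;> linarith
  have hge : inner ℝ g e = (0 : ℝ) := by rw [real_inner_comm]; exact h.ac
  have hgf : inner ℝ g f = (0 : ℝ) := by rw [real_inner_comm]; exact h.bc
  have hfe : inner ℝ f e = (0 : ℝ) := by rw [real_inner_comm]; exact h.ab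
  refine cfg_mem_of hD hpos hpair ?_
  intro i m hm hi r r' r0 r1 r0' r1'
  have hsum := (sum_part_le (al_nonneg hD.ang_nonneg hD.ang_le) (i := i) (m := m)
    (N := n - 1) (by omega)).trans (hs (by omega))
  rcases hR i m hm hi r r' r0 r1 r0' r1' with hr | hr
  · refine chord_ne (f := f) (d := fun k => σ (i + k)) (C := C) hfe hC ?_ ?_
      (fun k => hpair (i + k)) (fun k => al_nonneg hD.ang_nonneg hD.ang_le (i + k)) hsum _ hr
    · intro k
      rw [inner_add_right, inner_smul_right, inner_smul_right, h.bb, h.bc]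
      ring
    · intro k
      exact hσ (i + k)
  · refine chord_ne (f := g) (d := fun k => τ (i + k)) (C := S) hge hS ?_ ?_
      (fun k => hpair (i + k)) (fun k => al_nonneg hD.ang_nonneg hD.ang_le (i + k)) hsum _ hr
    · intro k
      rw [inner_add_right, inner_smul_right, inner_smul_right, hgf, h.cc]
      ring
    · intro k
      exact hτ (i + k)

/-- Flat configurations with room. -/
theorem mem_one (hD : Data P l θ) (hpos : ∀ k, k + 2 ≤ n → 0 < θ k)
    (hs : 3 ≤ n → ∑ k ∈ range (n - 1), al θ k ≤ 3 / 5) {d : ℕ → ℝ}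
    (hd : ∀ k, d k = 1 ∨ d k = -1)
    (hR : ∀ i m : ℕ, 2 ≤ m → i + m < n → ∀ r r' : ℝ, 0 ≤ r → r ≤ 1 → 0 ≤ r' → r' ≤ 1 →
      RoomAt l θ d i m r r')
    {e f g : E3} (h : ON e f g) (p : E3) :
    cfg n p e (fun k => d k • f) (al θ) (rh l θ) ∈ freeSpace P := by
  have hpair : ∀ k, Pair e (d k • f) := by
    intro k
    refine ON.pair h (d k) 0 (by simp) ?_
    rcases hd k with h1 | h1 <;> rw [h1] <;> norm_num
  have hfe : inner ℝ f e = (0 : ℝ) := by rw [real_inner_comm]; exact h.ab
  refine cfg_mem_of hD hpos hpair ?_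
  intro i m hm hi r r' r0 r1 r0' r1'
  refine chord_ne (f := f) (d := fun k => d (i + k)) (C := 1) hfe one_pos ?_ ?_
    (fun k => hpair (i + k)) (fun k => al_nonneg hD.ang_nonneg hD.ang_le (i + k))
    ((sum_part_le (al_nonneg hD.ang_nonneg hD.ang_le) (by omega)).trans (hs (by omega))) _
    (hR i m hm hi r r' r0 r1 r0' r1')
  · intro k
    rw [inner_smul_right, h.bb]
    ring
  · intro k
    exact hd (i + k)

/-- The motion between two flat configurations. -/
theorem join {σ τ α ρ : ℕ → ℝ} {a b c p1 p2 : E3} {ω ω' φ : ℝ} (hON : ON a b c)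
    (hmem : ∀ {e f g : E3}, ON e f g → ∀ {C S : ℝ}, 0 < C → 0 < S → C ^ 2 + S ^ 2 = 1 →
      ∀ p : E3, cfg n p e (fun k => (C * σ k) • f + (S * τ k) • g) α ρ ∈ freeSpace P)
    (h1 : cfg n p1 (cos ω • a + sin ω • b) (fun k => σ k • (-sin ω • a + cos ω • b)) α
      ρ ∈ freeSpace P)
    (h2 : cfg n p2 (cos ω' • a + sin ω' • (cos φ • b + sin φ • c))
      (fun k => τ k • (-sin ω' • a + cos ω' • (cos φ • b + sin φ • c))) α
      ρ ∈ freeSpace P) :
    JoinedIn (freeSpace P)
      (cfg n p1 (cos ω • a + sin ω • b) (fun k => σ k • (-sin ω • a + cos ω • b)) α ρ)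
      (cfg n p2 (cos ω' • a + sin ω' • (cos φ • b + sin φ • c))
        (fun k => τ k • (-sin ω' • a + cos ω' • (cos φ • b + sin φ • c))) α ρ) := by
  let pt : unitInterval → E3 := fun t => (1 - (t : ℝ)) • p1 + (t : ℝ) • p2
  let bt : unitInterval → E3 := fun t => cos (t * φ) • b + sin (t * φ) • c
  let ct : unitInterval → E3 := fun t => -sin (t * φ) • b + cos (t * φ) • c
  let wt : unitInterval → ℝ := fun t => (1 - (t : ℝ)) * ω + (t : ℝ) * ω'
  let et : unitInterval → E3 := fun t => cos (wt t) • a + sin (wt t) • bt t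
  let ft : unitInterval → E3 := fun t => -sin (wt t) • a + cos (wt t) • bt t
  let Ft : unitInterval → E3 := fun t => cos (-(π / 2 * t)) • ft t + sin (-(π / 2 * t)) • ct t
  let Gt : unitInterval → E3 := fun t => -sin (-(π / 2 * t)) • ft t + cos (-(π / 2 * t)) • ct t
  let nt : unitInterval → ℕ → E3 := fun t k =>
    (cos (π / 2 * t) * σ k) • Ft t + (sin (π / 2 * t) * τ k) • Gt t
  have hONt : ∀ t, ON (et t) (Ft t) (Gt t) := fun t =>
    ON_rot (ON_rot' (ON_rot hON (t * φ)) (wt t)) (-(π / 2 * t))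
  have cpt : Continuous pt := by fun_prop
  have cbt : Continuous bt := by fun_prop
  have cct : Continuous ct := by fun_prop
  have cwt : Continuous wt := by fun_prop
  have cet : Continuous et :=
    ((continuous_cos.comp cwt).smul continuous_const).add ((continuous_sin.comp cwt).smul cbt)
  have cft : Continuous ft :=
    ((continuous_sin.comp cwt).neg.smul continuous_const).add ((continuous_cos.comp cwt).smul cbt)
  have c1 : Continuous fun t : unitInterval => cos (π / 2 * (t : ℝ)) := by fun_prop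
  have c2 : Continuous fun t : unitInterval => sin (π / 2 * (t : ℝ)) := by fun_prop
  have c3 : Continuous fun t : unitInterval => cos (-(π / 2 * (t : ℝ))) := by fun_prop
  have c4 : Continuous fun t : unitInterval => sin (-(π / 2 * (t : ℝ))) := by fun_prop
  have cFt : Continuous Ft := (c3.smul cft).add (c4.smul cct)
  have cGt : Continuous Gt := (c4.neg.smul cft).add (c3.smul cct)
  have cnt : ∀ k, Continuous fun t : unitInterval => nt t k := fun k =>
    ((c1.mul continuous_const).smul cFt).add ((c2.mul continuous_const).smul cGt)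
  have e0 : cfg n (pt 0) (et 0) (nt 0) α ρ =
      cfg n p1 (cos ω • a + sin ω • b) (fun k => σ k • (-sin ω • a + cos ω • b)) α
        ρ := by
    have q1 : pt 0 = p1 := by simp [pt]
    have q2 : bt 0 = b := by simp [bt]
    have q3 : wt 0 = ω := by simp [wt]
    have q4 : et 0 = cos ω • a + sin ω • b := by simp only [et, q2, q3]
    have q5 : ft 0 = -sin ω • a + cos ω • b := by simp only [ft, q2, q3]
    have q6 : Ft 0 = -sin ω • a + cos ω • b := by
      have : Ft 0 = cos (-(π / 2 * ((0 : unitInterval) : ℝ))) • ft 0 +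
        sin (-(π / 2 * ((0 : unitInterval) : ℝ))) • ct 0 := rfl
      rw [this, q5]
      simp
    have q7 : nt 0 = fun k => σ k • (-sin ω • a + cos ω • b) := by
      funext k
      have : nt 0 k = (cos (π / 2 * ((0 : unitInterval) : ℝ)) * σ k) • Ft 0 +
        (sin (π / 2 * ((0 : unitInterval) : ℝ)) * τ k) • Gt 0 := rfl
      rw [this, q6]
      simp
    rw [q1, q4, q7]
  have e1 : cfg n (pt 1) (et 1) (nt 1) α ρ =
      cfg n p2 (cos ω' • a + sin ω' • (cos φ • b + sin φ • c))
        (fun k => τ k • (-sin ω' • a + cos ω' • (cos φ • b + sin φ • c))) α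
        ρ := by
    have q1 : pt 1 = p2 := by simp [pt]
    have q2 : bt 1 = cos φ • b + sin φ • c := by simp [bt]
    have q3 : wt 1 = ω' := by simp [wt]
    have q4 : et 1 = cos ω' • a + sin ω' • (cos φ • b + sin φ • c) := by
      simp only [et, q2, q3]
    have q5 : ft 1 = -sin ω' • a + cos ω' • (cos φ • b + sin φ • c) := by
      simp only [ft, q2, q3]
    have q6 : Gt 1 = -sin ω' • a + cos ω' • (cos φ • b + sin φ • c) := by
      have : Gt 1 = -sin (-(π / 2 * ((1 : unitInterval) : ℝ))) • ft 1 +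
        cos (-(π / 2 * ((1 : unitInterval) : ℝ))) • ct 1 := rfl
      rw [this, q5]
      simp only [Set.Icc.coe_one, mul_one, cos_neg, sin_neg, cos_pi_div_two, sin_pi_div_two,
        neg_neg, one_smul, zero_smul, add_zero]
    have q7 : nt 1 = fun k => τ k • (-sin ω' • a + cos ω' • (cos φ • b + sin φ • c)) := by
      funext k
      have : nt 1 k = (cos (π / 2 * ((1 : unitInterval) : ℝ)) * σ k) • Ft 1 +
        (sin (π / 2 * ((1 : unitInterval) : ℝ)) * τ k) • Gt 1 := rfl
      rw [this, q6]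
      simp only [Set.Icc.coe_one, mul_one, cos_pi_div_two, sin_pi_div_two, zero_mul, one_mul,
        zero_smul, zero_add]
    rw [q1, q4, q7]
  refine ⟨⟨⟨fun t => cfg n (pt t) (et t) (nt t) α ρ, ?_⟩, e0, e1⟩, ?_⟩
  · rw [continuous_pi_iff]
    intro i
    exact continuous_vtt α ρ cpt cet cnt i.val
  · intro t
    change cfg n (pt t) (et t) (nt t) α ρ ∈ freeSpace P
    rcases (unitInterval.nonneg t).eq_or_lt with ht | ht
    · have ht' : t = 0 := Subtype.ext ht.symm
      rw [ht', e0]
      exact h1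
    rcases (unitInterval.le_one t).eq_or_lt with ht2 | ht2
    · have ht' : t = 1 := Subtype.ext ht2
      rw [ht', e1]
      exact h2
    have hc : 0 < cos (π / 2 * (t : ℝ)) :=
      cos_pos_of_mem_Ioo ⟨by nlinarith [pi_pos], by nlinarith [pi_pos]⟩
    have hs' : 0 < sin (π / 2 * (t : ℝ)) :=
      sin_pos_of_pos_of_lt_pi (by positivity) (by nlinarith [pi_pos])
    exact hmem (hONt t) hc hs' (cos_sq_add_sin_sq _) (pt t)

end

end Pool.Agent.ThinA
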